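import Pool.Agent.Q102.CP.CVb

set_option autoImplicit false

/-! # Project CP: few close pairs give the upper bound -/

namespace Pool.Agent.Q102.CP

open MeasureTheory Filter Topology Set Complex
open Pool.Agent.Q253.HV Pool.Agent.Q253.LQ Pool.Agent.Q253.CP

variable {f : ℝ → ℂ} {m : ℝ → ℕ} {D A C : ℝ}

lemma nn_mono (hm : SM m) {U β β' γ : ℝ} (h : β ≤ β') : nn hm U β γ ≤ nn hm U β' γ := by
  classical
  unfold nn
  apply Finset.sum_le_sum_of_subset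
  intro x hx
  rw [Finset.mem_filter] at hx ⊢
  refine ⟨hx.1, ?_⟩
  have := hx.2
  unfold cl at *
  linarith

lemma Pm_mono (hm : SM m) {U β β' : ℝ} (h : β ≤ β') : Pm m U β ≤ Pm m U β' := by
  rw [Pm_eq hm, Pm_eq hm]
  exact Finset.sum_le_sum fun γ _ => Nat.mul_le_mul_left _ (nn_mono hm h)

/-- the total -/
lemma Fct.total (F : Fct f m D A C) {C5 : ℝ}
    (h5 : ∀ κ δ : ℝ, 0 < κ → κ ≤ Real.exp (-24) → 0 < δ → δ * LL κ ≤ 6 →
      Integrable (fun y => ZZ m δ y ^ 2 / ((1 / κ) ^ 2 + y ^ 2)) ∧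
      ∫ y, ZZ m δ y ^ 2 / ((1 / κ) ^ 2 + y ^ 2) ≤ C5 * (κ * LL κ / δ))
    {κ κ' δ δ1 Y U β : ℝ} (k0 : 0 < κ) (kb : κ ≤ Real.exp (-24)) (hY : 1 ≤ Y) (hκ' : κ' = κ / Y)
    (hU : U = 2 * Y / κ) (h0 : 0 < δ) (h1 : δ ≤ 1 / 4) (hd1 : 0 < δ1) (hd14 : δ1 ≤ 1 / 4)
    (a1 : δ * LL κ ≤ 6) (a2 : δ1 * LL κ ≤ 6) (a3 : δ * LL κ' ≤ 6)
    (hc : ∀ γ γ' : ℝ, ¬ cl U β γ γ' → 2 * δ1 ≤ |γ - γ'|) :
    ∫ y, ZZ m δ y ^ 2 * hh κ (1 / 2 + δ) y ≤
      (∑ γ ∈ FF F.sm U, (m γ : ℝ) * (nn F.sm U β γ : ℝ) *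
        ∫ y, Pk δ (y - γ) ^ 2 * hh κ (1 / 2 + δ) y) +
      2 * δ / δ1 * C * (C5 * (κ * LL κ / δ) + C5 * (κ * LL κ / δ1)) +
      2 * C * (C5 * (κ' * LL κ' / δ)) := by
  have hk14 : Real.exp (-24) ≤ 1 / 4 := by
    rw [Real.exp_neg, inv_eq_one_div]
    apply one_div_le_one_div_of_le (by norm_num)
    have := Real.add_one_le_exp (24 : ℝ)
    linarith
  have k4 : κ ≤ 1 / 4 := kb.trans hk14
  have hYp : 0 < Y := by linarith
  have hκ'0 : 0 < κ' := by rw [hκ']; positivity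
  have hκ'b : κ' ≤ Real.exp (-24) := by
    rw [hκ']
    exact (div_le_self k0.le hY).trans kb
  have hU2 : U / 2 = Y / κ := by rw [hU]; ring
  have hU3 : U / 2 = 1 / κ' := by rw [hU2, hκ', one_div_div]
  have hδU : δ1 ≤ U / 2 := by
    rw [hU2, le_div_iff₀ k0]
    nlinarith
  have hC := F.C1
  obtain ⟨i1, b1⟩ := h5 κ δ k0 kb h0 a1
  obtain ⟨i2, b2⟩ := h5 κ δ1 k0 kb hd1 a2
  obtain ⟨i3, b3⟩ := h5 κ' δ hκ'0 hκ'b h0 a3
  set h : ℝ → ℝ := hh κ (1 / 2 + δ) with hh'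
  have hn : ∀ y, 0 ≤ h y := fun y => hh_nonneg _ _ _
  set T := FF F.sm U with hT
  set w1 : ℝ → ℝ := fun y => ZZ m δ y ^ 2 / ((1 / κ) ^ 2 + y ^ 2) with hw1
  set w2 : ℝ → ℝ := fun y => ZZ m δ1 y ^ 2 / ((1 / κ) ^ 2 + y ^ 2) with hw2
  set w3 : ℝ → ℝ := fun y => ZZ m δ y ^ 2 / ((1 / κ') ^ 2 + y ^ 2) with hw3
  have w10 : ∀ y, 0 ≤ w1 y := fun y => by rw [hw1]; positivity
  have w20 : ∀ y, 0 ≤ w2 y := fun y => by rw [hw2]; positivity
  have w30 : ∀ y, 0 ≤ w3 y := fun y => by rw [hw3]; positivity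
  set t : ℝ → ℝ := fun y => ∑ γ ∈ T, (m γ : ℝ) * (nn F.sm U β γ : ℝ) * (Pk δ (y - γ) ^ 2 * h y) with ht
  have t0 : ∀ y, 0 ≤ t y := fun y => Finset.sum_nonneg fun γ _ =>
    mul_nonneg (mul_nonneg (Nat.cast_nonneg _) (Nat.cast_nonneg _)) (mul_nonneg (sq_nonneg _) (hn y))
  have pt : ∀ y, ZZ m δ y ^ 2 * h y ≤ t y + (2 * δ / δ1 * C) * (w1 y + w2 y) + (2 * C) * w3 y := by
    intro y
    have hup := F.wup κ (1 / 2 + δ) y k0 k4 (by linarith) (by linarith)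
    have c0 : 0 ≤ 2 * δ / δ1 * C := by positivity
    rcases le_or_gt |y| (U / 2) with hy | hy
    · have g1 := pw F.sm h0 hd1 hδU hy hc
      have g2 := mul_le_mul_of_nonneg_right g1 (hn y)
      rw [add_mul, Finset.sum_mul] at g2
      have g3 : 4 * δ / δ1 * (ZZ m δ y * ZZ m δ1 y) * h y ≤ (2 * δ / δ1 * C) * (w1 y + w2 y) := by
        have z1 := ZZ_nonneg (m := m) h0 y
        have z2 := ZZ_nonneg (m := m) hd1 y
        have g4 : 2 * (ZZ m δ y * ZZ m δ1 y) ≤ ZZ m δ y ^ 2 + ZZ m δ1 y ^ 2 := by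
          nlinarith [sq_nonneg (ZZ m δ y - ZZ m δ1 y)]
        have g5 : 4 * δ / δ1 * (ZZ m δ y * ZZ m δ1 y) ≤ 2 * δ / δ1 * (ZZ m δ y ^ 2 + ZZ m δ1 y ^ 2) := by
          have := mul_le_mul_of_nonneg_left g4 (show 0 ≤ 2 * δ / δ1 by positivity)
          calc 4 * δ / δ1 * (ZZ m δ y * ZZ m δ1 y) = 2 * δ / δ1 * (2 * (ZZ m δ y * ZZ m δ1 y)) := by ring
            _ ≤ _ := this
        calc 4 * δ / δ1 * (ZZ m δ y * ZZ m δ1 y) * h y ≤
              (2 * δ / δ1 * (ZZ m δ y ^ 2 + ZZ m δ1 y ^ 2)) * (C / ((1 / κ) ^ 2 + y ^ 2)) :=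
              mul_le_mul g5 hup (hn y) (by positivity)
          _ = _ := by
              rw [hw1, hw2]
              ring
      have g6 : ∑ γ ∈ T, (m γ : ℝ) * (nn F.sm U β γ : ℝ) * Pk δ (y - γ) ^ 2 * h y = t y := by
        rw [ht]
        refine Finset.sum_congr rfl fun γ _ => ?_
        ring
      rw [g6] at g2
      have := w30 y
      have : 0 ≤ 2 * C * w3 y := by positivity
      linarith
    · have g1 : h y ≤ 2 * C / ((1 / κ') ^ 2 + y ^ 2) := by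
        refine hup.trans ?_
        rw [div_le_div_iff₀ (by positivity) (by positivity)]
        have g2 : (1 / κ') ^ 2 ≤ y ^ 2 := by
          rw [← sq_abs y]
          apply pow_le_pow_left₀ (by positivity)
          rw [← hU3]
          exact hy.le
        have g3 : 0 ≤ (1 / κ) ^ 2 := by positivity
        have g4 : (1 / κ') ^ 2 + y ^ 2 ≤ 2 * ((1 / κ) ^ 2 + y ^ 2) := by linarith
        have g5 := mul_le_mul_of_nonneg_left g4 (show 0 ≤ C by linarith)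
        linarith
      have g2 : ZZ m δ y ^ 2 * h y ≤ (2 * C) * w3 y := by
        have := mul_le_mul_of_nonneg_left g1 (sq_nonneg (ZZ m δ y))
        refine this.trans (le_of_eq ?_)
        rw [hw3]
        ring
      have g3 := t0 y
      have g4 : 0 ≤ 2 * δ / δ1 * C * (w1 y + w2 y) := mul_nonneg c0 (add_nonneg (w10 y) (w20 y))
      linarith
  have it : ∀ γ ∈ T, Integrable (fun y => (m γ : ℝ) * (nn F.sm U β γ : ℝ) * (Pk δ (y - γ) ^ 2 * h y)) :=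
    fun γ _ => (F.P2i k0 k4 (by linarith) (by linarith) h0 γ).const_mul _
  have itt : Integrable t := integrable_finsetSum T it
  have i12 : Integrable (fun y => w1 y + w2 y) := i1.add i2
  have ia : Integrable (fun y => t y + (2 * δ / δ1 * C) * (w1 y + w2 y)) := itt.add (i12.const_mul _)
  have ib : Integrable (fun y => t y + (2 * δ / δ1 * C) * (w1 y + w2 y) + (2 * C) * w3 y) :=
    ia.add (i3.const_mul _)
  have g := integral_mono (F.Zi k0 k4 h0 h1) ib pt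
  rw [integral_add ia (i3.const_mul _), integral_add itt (i12.const_mul _), integral_const_mul,
    integral_const_mul, integral_add i1 i2, integral_finsetSum T it] at g
  simp_rw [integral_const_mul] at g
  refine g.trans ?_
  have c1 : 2 * δ / δ1 * C * ((∫ y, w1 y) + ∫ y, w2 y) ≤
      2 * δ / δ1 * C * (C5 * (κ * LL κ / δ) + C5 * (κ * LL κ / δ1)) :=
    mul_le_mul_of_nonneg_left (add_le_add b1 b2) (by positivity)
  have c2 : 2 * C * ∫ y, w3 y ≤ 2 * C * (C5 * (κ' * LL κ' / δ)) :=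
    mul_le_mul_of_nonneg_left b3 (by positivity)
  exact add_le_add (add_le_add le_rfl c1) c2

/-- the close pairs -/
lemma Fct.close (F : Fct f m D A C) {C7 : ℝ} (h7 : 1 ≤ C7)
    (hz : ∀ κ δ δ' : ℝ, 0 < κ → κ ≤ 1 / 4 → 0 < δ → δ ≤ 1 / 4 → 0 < δ' → δ' ≤ 1 / 4 →
      Integrable (fun y => ZZ m δ' y * hh κ (1 / 2 + δ) y) ∧
      |(∫ y, ZZ m δ' y * hh κ (1 / 2 + δ) y) - Real.pi * D * (κ * LL κ)| ≤ C7 * κ)
    {κ δ η U β : ℝ} (k0 : 0 < κ) (k4 : κ ≤ 1 / 4) (h0 : 0 < δ) (h1 : δ ≤ 1 / 4) (e0 : 0 < η)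
    (e1 : η ≤ 1 / 4) (hβ : 0 ≤ β) :
    2 * δ / Real.pi * (∑ γ ∈ FF F.sm U, (m γ : ℝ) * (nn F.sm U β γ : ℝ) *
        ∫ y, Pk δ (y - γ) ^ 2 * hh κ (1 / 2 + δ) y) ≤
      (1 + 4 * η) * (D * (κ * LL κ)) + C7 * κ / η +
        2 * C * κ ^ 2 * ((Pm m U β : ℝ) - (Nm m U : ℝ)) := by
  have hC := F.C1
  set T := FF F.sm U with hT
  have g1 := F.diag h7 hz k0 k4 h0 h1 e0 e1 T
  have e2 : 2 * δ / Real.pi * (∑ γ ∈ T, (m γ : ℝ) * (nn F.sm U β γ : ℝ) *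
        ∫ y, Pk δ (y - γ) ^ 2 * hh κ (1 / 2 + δ) y) =
      (∑ γ ∈ T, (m γ : ℝ) * Wt κ δ γ) +
        ∑ γ ∈ T, (m γ : ℝ) * ((nn F.sm U β γ : ℝ) - 1) * Wt κ δ γ := by
    rw [Finset.mul_sum, ← Finset.sum_add_distrib]
    refine Finset.sum_congr rfl fun γ _ => ?_
    unfold Wt
    ring
  have g2 : ∑ γ ∈ T, (m γ : ℝ) * ((nn F.sm U β γ : ℝ) - 1) * Wt κ δ γ ≤
      ∑ γ ∈ T, (m γ : ℝ) * ((nn F.sm U β γ : ℝ) - 1) * (2 * C * κ ^ 2) := by
    refine Finset.sum_le_sum fun γ hγ => ?_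
    apply mul_le_mul_of_nonneg_left (F.Wt_le k0 k4 h0 h1 γ)
    have h2 : (1 : ℝ) ≤ (nn F.sm U β γ : ℝ) := by exact_mod_cast one_le_nn F.sm hβ hγ
    exact mul_nonneg (Nat.cast_nonneg _) (by linarith)
  have g3 : ∑ γ ∈ T, (m γ : ℝ) * ((nn F.sm U β γ : ℝ) - 1) * (2 * C * κ ^ 2) =
      2 * C * κ ^ 2 * ((Pm m U β : ℝ) - (Nm m U : ℝ)) := by
    rw [Pm_eq F.sm, Nm_eq F.sm]
    push_cast
    rw [← Finset.sum_sub_distrib, Finset.mul_sum]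
    refine Finset.sum_congr rfl fun γ _ => ?_
    ring
  rw [e2]
  linarith

/-- the squares -/
lemma Fct.J_up (F : Fct f m D A C) {κ δ e1 : ℝ} (k0 : 0 < κ) (k4 : κ ≤ 1 / 4) (h0 : 0 < δ)
    (h1 : δ ≤ 1 / 4) (he : 0 < e1) : Jt f κ δ ≤
      (1 + e1) * (1 / Real.pi * ∫ y, ZZ m δ y ^ 2 * hh κ (1 / 2 + δ) y) +
      ((1 + 1 / e1) * AA A D ^ 2 * C + C) * (κ * LL κ ^ 2) := by
  have i1 := F.Zi k0 k4 h0 h1
  have i2 := F.w2i κ (1 / 2 + δ) k0 k4 (by linarith) (by linarith)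
  have hpi := Real.pi_gt_three
  have h2 : ∫ y, RR f δ y ^ 2 * hh κ (1 / 2 + δ) y ≤
      ∫ y, ((1 + e1) * (ZZ m δ y ^ 2 * hh κ (1 / 2 + δ) y) +
        ((1 + 1 / e1) * AA A D ^ 2) * (lg y ^ 2 * hh κ (1 / 2 + δ) y)) := by
    refine integral_mono (F.kpr κ δ k0 k4 h0 h1) ((i1.const_mul _).add (i2.const_mul _)) fun y => ?_
    have h3 := F.rl2 y h0 h1
    have h4 : (RR f δ y - ZZ m δ y) ^ 2 ≤ (AA A D * lg y) ^ 2 := by
      rw [← sq_abs (RR f δ y - ZZ m δ y)]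
      exact pow_le_pow_left₀ (abs_nonneg _) h3 2
    have h5 : RR f δ y ^ 2 ≤ (1 + e1) * ZZ m δ y ^ 2 + (1 + 1 / e1) * (AA A D * lg y) ^ 2 := by
      have h6 : RR f δ y ^ 2 ≤ (1 + e1) * ZZ m δ y ^ 2 + (1 + 1 / e1) * (RR f δ y - ZZ m δ y) ^ 2 := by
        have h7 : 0 ≤ (e1 * ZZ m δ y - (RR f δ y - ZZ m δ y)) ^ 2 / e1 := by positivity
        have h8 : (e1 * ZZ m δ y - (RR f δ y - ZZ m δ y)) ^ 2 / e1 =
            e1 * ZZ m δ y ^ 2 - 2 * ZZ m δ y * (RR f δ y - ZZ m δ y) +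
            1 / e1 * (RR f δ y - ZZ m δ y) ^ 2 := by
          field_simp
          ring
        rw [h8] at h7
        nlinarith
      have h9 : 0 ≤ 1 + 1 / e1 := by positivity
      exact h6.trans (by linarith [mul_le_mul_of_nonneg_left h4 h9])
    have h10 := mul_le_mul_of_nonneg_right h5 (hh_nonneg κ (1 / 2 + δ) y)
    refine h10.trans (le_of_eq ?_)
    ring
  rw [integral_add (i1.const_mul _) (i2.const_mul _), integral_const_mul, integral_const_mul] at h2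
  have h3 := F.w2 κ (1 / 2 + δ) k0 k4 (by linarith) (by linarith)
  have h4 := (abs_le.1 (F.kp κ δ k0 k4 h0 h1)).2
  have hL := one_le_LL k0 k4
  have hL2 : κ ≤ κ * LL κ ^ 2 := le_mul_of_one_le_right k0.le (one_le_pow₀ hL)
  have hC := F.C1
  have hA := F.AA1
  have q0 : 0 ≤ (1 + 1 / e1) * AA A D ^ 2 := by positivity
  have h5 := mul_le_mul_of_nonneg_left h3 q0
  have h6 := mul_le_mul_of_nonneg_left (h2.trans (add_le_add le_rfl h5))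
    (show 0 ≤ 1 / Real.pi by positivity)
  have h7 : 1 / Real.pi * ((1 + 1 / e1) * AA A D ^ 2 * (C * κ * LL κ ^ 2)) ≤
      (1 + 1 / e1) * AA A D ^ 2 * (C * κ * LL κ ^ 2) := by
    apply mul_le_of_le_one_left (by positivity)
    rw [div_le_one (by linarith)]
    linarith
  have h8 : C * κ ≤ C * (κ * LL κ ^ 2) := mul_le_mul_of_nonneg_left hL2 (by linarith)
  rw [mul_add] at h6
  have e2 : ((1 + 1 / e1) * AA A D ^ 2 * C + C) * (κ * LL κ ^ 2) =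
      (1 + 1 / e1) * AA A D ^ 2 * (C * κ * LL κ ^ 2) + C * (κ * LL κ ^ 2) := by ring
  rw [e2]
  have e3 : 1 / Real.pi * ((1 + e1) * ∫ y, ZZ m δ y ^ 2 * hh κ (1 / 2 + δ) y) =
      (1 + e1) * (1 / Real.pi * ∫ y, ZZ m δ y ^ 2 * hh κ (1 / 2 + δ) y) := by ring
  rw [e3] at h6
  linarith

end Pool.Agent.Q102.CP
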