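import Pool.Agent.Q102.CP.TB

set_option autoImplicit false

/-! # Project CP: few close pairs, the pointwise inequality -/

namespace Pool.Agent.Q102.CP

open MeasureTheory Filter Topology Set Complex
open Pool.Agent.Q253.HV Pool.Agent.Q253.LQ Pool.Agent.Q253.CP

variable {m : ℝ → ℕ}

lemma fin_zeros (hm : SM m) (U : ℝ) : {γ : ℝ | |γ| ≤ U ∧ m γ ≠ 0}.Finite := by
  have hU : 0 < 1 / (1 + U ^ 2) := by positivity
  have h1 := hm.tendsto_cofinite_zero.eventually (gt_mem_nhds hU)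
  rw [Filter.eventually_cofinite] at h1
  refine h1.subset fun γ hγ => ?_
  have h2 : γ ^ 2 ≤ U ^ 2 := by
    rw [← sq_abs]
    exact pow_le_pow_left₀ (abs_nonneg _) hγ.1 2
  have h3 : (1 : ℝ) ≤ (m γ : ℝ) := by exact_mod_cast Nat.one_le_iff_ne_zero.2 hγ.2
  have h4 : 1 / (1 + U ^ 2) ≤ (m γ : ℝ) / (1 + γ ^ 2) := by
    apply div_le_div₀ (by positivity) h3 (by positivity) (by linarith)
  exact not_lt.2 h4

/-- the zeros up to height `U` -/
noncomputable def FF (hm : SM m) (U : ℝ) : Finset ℝ := (fin_zeros hm U).toFinset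

lemma mem_FF (hm : SM m) {U γ : ℝ} : γ ∈ FF hm U ↔ |γ| ≤ U ∧ m γ ≠ 0 := by
  unfold FF
  rw [Set.Finite.mem_toFinset]
  rfl

/-- close pairs -/
def cl (U β : ℝ) (γ γ' : ℝ) : Prop := |γ - γ'| * Real.log U / (2 * Real.pi) ≤ β

lemma cl_symm {U β γ γ' : ℝ} (h : cl U β γ γ') : cl U β γ' γ := by
  unfold cl at *
  rwa [abs_sub_comm]

lemma cl_self {U β γ : ℝ} (hβ : 0 ≤ β) : cl U β γ γ := by
  unfold cl
  simpa using hβ

open Classical in
/-- number of zeros close to `γ` -/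
noncomputable def nn (hm : SM m) (U β γ : ℝ) : ℕ := ∑ γ' ∈ (FF hm U).filter (cl U β γ), m γ'

lemma Nm_eq (hm : SM m) (U : ℝ) : Nm m U = ∑ γ ∈ FF hm U, m γ := by
  unfold Nm
  apply finsum_mem_eq_sum_of_inter_support_eq
  ext γ
  simp only [mem_inter_iff, mem_ofPred_eq, Function.mem_support, SetLike.mem_coe, mem_FF]
  tauto

lemma Pm_eq (hm : SM m) (U β : ℝ) : Pm m U β = ∑ γ ∈ FF hm U, m γ * nn hm U β γ := by
  classical
  unfold Pm
  rw [finsum_mem_eq_sum_of_inter_support_eq (t := ((FF hm U) ×ˢ (FF hm U)).filter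
    (fun p => cl U β p.1 p.2))]
  · rw [Finset.sum_filter, Finset.sum_product]
    refine Finset.sum_congr rfl fun γ _ => ?_
    unfold nn
    rw [Finset.mul_sum, Finset.sum_filter]
  · ext p
    simp only [mem_inter_iff, mem_ofPred_eq, Function.mem_support, Finset.coe_filter,
      Finset.mem_product, mem_FF, ne_eq, mul_eq_zero, not_or]
    unfold cl
    tauto

lemma one_le_nn (hm : SM m) {U β γ : ℝ} (hβ : 0 ≤ β) (hγ : γ ∈ FF hm U) : 1 ≤ nn hm U β γ := by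
  classical
  unfold nn
  have h1 : γ ∈ (FF hm U).filter (cl U β γ) := Finset.mem_filter.2 ⟨hγ, cl_self hβ⟩
  have h2 := Finset.single_le_sum (f := m) (fun _ _ => Nat.zero_le _) h1
  have h3 := Nat.one_le_iff_ne_zero.2 ((mem_FF hm).1 hγ).2
  exact h3.trans h2

lemma Pk_far {δ δ1 v : ℝ} (h0 : 0 < δ) (h1 : 0 < δ1) (h : δ1 ≤ |v|) :
    Pk δ v ≤ 2 * δ / δ1 * Pk δ1 v := by
  unfold Pk
  have hv : δ1 ^ 2 ≤ v ^ 2 := by
    rw [← sq_abs v]
    exact pow_le_pow_left₀ h1.le h 2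
  have hd : 0 < δ1 ^ 2 := by positivity
  rw [div_mul_div_comm, div_le_div_iff₀ (by positivity) (by positivity)]
  have : δ * (δ1 * (δ1 ^ 2 + v ^ 2)) ≤ 2 * δ * δ1 * (δ ^ 2 + v ^ 2) := by
    have h2 : δ1 ^ 2 + v ^ 2 ≤ 2 * (δ ^ 2 + v ^ 2) := by nlinarith [sq_nonneg δ]
    have h3 := mul_le_mul_of_nonneg_left h2 (show 0 ≤ δ * δ1 by positivity)
    linarith
  exact this

lemma pair_far {δ δ1 v v' : ℝ} (h0 : 0 < δ) (h1 : 0 < δ1) (h : δ1 ≤ |v| ∨ δ1 ≤ |v'|) :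
    Pk δ v * Pk δ v' ≤ 2 * δ / δ1 * (Pk δ v * Pk δ1 v' + Pk δ1 v * Pk δ v') := by
  have p1 := Pk_nonneg h0 v
  have p2 := Pk_nonneg h0 v'
  have p3 := Pk_nonneg h1 v
  have p4 := Pk_nonneg h1 v'
  have hq : 0 ≤ 2 * δ / δ1 := by positivity
  rcases h with h | h
  · have h2 := mul_le_mul_of_nonneg_right (Pk_far h0 h1 h) p2
    have h3 : 0 ≤ 2 * δ / δ1 * (Pk δ v * Pk δ1 v') := by positivity
    linarith
  · have h2 := mul_le_mul_of_nonneg_left (Pk_far h0 h1 h) p1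
    have h3 : 0 ≤ 2 * δ / δ1 * (Pk δ1 v * Pk δ v') := by positivity
    linarith

lemma pw (hm : SM m) {δ δ1 U β y : ℝ} (h0 : 0 < δ) (h1 : 0 < δ1) (hU : δ1 ≤ U / 2)
    (hy : |y| ≤ U / 2) (hc : ∀ γ γ' : ℝ, ¬ cl U β γ γ' → 2 * δ1 ≤ |γ - γ'|) :
    ZZ m δ y ^ 2 ≤ (∑ γ ∈ FF hm U, (m γ : ℝ) * (nn hm U β γ : ℝ) * Pk δ (y - γ) ^ 2) +
      4 * δ / δ1 * (ZZ m δ y * ZZ m δ1 y) := by
  classical
  set F := FF hm U with hF
  set ind : ℝ → ℝ → ℝ := fun γ γ' => if γ ∈ F ∧ γ' ∈ F ∧ cl U β γ γ' then 1 else 0 with hind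
  have ind0 : ∀ γ γ', 0 ≤ ind γ γ' := by
    intro γ γ'
    rw [hind]
    simp only
    split_ifs <;> norm_num
  have P0 : ∀ γ, 0 ≤ Pk δ (y - γ) := fun γ => Pk_nonneg h0 _
  have Q0 : ∀ γ, 0 ≤ Pk δ1 (y - γ) := fun γ => Pk_nonneg h1 _
  have M0 : ∀ γ, (0 : ℝ) ≤ (m γ : ℝ) := fun γ => Nat.cast_nonneg _
  have s1 := summ hm h0 y
  have s2 := summ hm h1 y
  -- one pair
  have pair : ∀ γ γ' : ℝ, ((m γ : ℝ) * Pk δ (y - γ)) * ((m γ' : ℝ) * Pk δ (y - γ')) ≤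
      ((m γ : ℝ) * Pk δ (y - γ)) * (ind γ γ' * ((m γ' : ℝ) * Pk δ (y - γ'))) +
      (2 * δ / δ1 * ((m γ : ℝ) * Pk δ (y - γ)) * ((m γ' : ℝ) * Pk δ1 (y - γ')) +
        2 * δ / δ1 * ((m γ : ℝ) * Pk δ1 (y - γ)) * ((m γ' : ℝ) * Pk δ (y - γ'))) := by
    intro γ γ'
    have hq : 0 ≤ 2 * δ / δ1 := by positivity
    have hn : 0 ≤ 2 * δ / δ1 * ((m γ : ℝ) * Pk δ (y - γ)) * ((m γ' : ℝ) * Pk δ1 (y - γ')) +
        2 * δ / δ1 * ((m γ : ℝ) * Pk δ1 (y - γ)) * ((m γ' : ℝ) * Pk δ (y - γ')) := by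
      have := P0 γ
      have := P0 γ'
      have := Q0 γ
      have := Q0 γ'
      positivity
    by_cases h : γ ∈ F ∧ γ' ∈ F ∧ cl U β γ γ'
    · have e : ind γ γ' = 1 := by rw [hind]; simp only; rw [if_pos h]
      rw [e, one_mul]
      linarith
    · have e : ind γ γ' = 0 := by rw [hind]; simp only; rw [if_neg h]
      rw [e, zero_mul, mul_zero, zero_add]
      rcases Nat.eq_zero_or_pos (m γ) with hz | hz
      · rw [hz]
        simp
      rcases Nat.eq_zero_or_pos (m γ') with hz' | hz'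
      · rw [hz']
        simp
      have hfar : δ1 ≤ |y - γ| ∨ δ1 ≤ |y - γ'| := by
        by_contra hno
        push Not at hno
        obtain ⟨n1, n2⟩ := hno
        apply h
        refine ⟨(mem_FF hm).2 ⟨?_, hz.ne'⟩, (mem_FF hm).2 ⟨?_, hz'.ne'⟩, ?_⟩
        · have : |γ| ≤ |y| + |y - γ| := by
            have e : γ = y - (y - γ) := by ring
            calc |γ| = |y - (y - γ)| := by rw [← e]
              _ ≤ |y| + |y - γ| := abs_sub _ _
          linarith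
        · have : |γ'| ≤ |y| + |y - γ'| := by
            have e : γ' = y - (y - γ') := by ring
            calc |γ'| = |y - (y - γ')| := by rw [← e]
              _ ≤ |y| + |y - γ'| := abs_sub _ _
          linarith
        · by_contra hcl
          have h5 := hc γ γ' hcl
          have h6 : |γ - γ'| ≤ |y - γ'| + |y - γ| := by
            have e : γ - γ' = (y - γ') - (y - γ) := by ring
            rw [e]
            exact abs_sub _ _
          linarith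
      have h2 := mul_le_mul_of_nonneg_left (pair_far h0 h1 hfar)
        (mul_nonneg (M0 γ) (M0 γ'))
      calc ((m γ : ℝ) * Pk δ (y - γ)) * ((m γ' : ℝ) * Pk δ (y - γ')) =
            (m γ : ℝ) * (m γ' : ℝ) * (Pk δ (y - γ) * Pk δ (y - γ')) := by ring
        _ ≤ _ := h2
        _ = _ := by ring
  -- the sum over `γ'`
  set q : ℝ → ℝ := fun γ => ∑ γ' ∈ F, ind γ γ' * ((m γ' : ℝ) * Pk δ (y - γ')) with hq
  have sind : ∀ γ, HasSum (fun γ' => ind γ γ' * ((m γ' : ℝ) * Pk δ (y - γ'))) (q γ) := by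
    intro γ
    apply hasSum_sum_of_ne_finset_zero
    intro γ' hγ'
    have : ind γ γ' = 0 := by
      rw [hind]
      simp only
      rw [if_neg (fun h => hγ' h.2.1)]
    rw [this, zero_mul]
  have row : ∀ γ : ℝ, ((m γ : ℝ) * Pk δ (y - γ)) * ZZ m δ y ≤
      ((m γ : ℝ) * Pk δ (y - γ)) * q γ +
      (2 * δ / δ1 * ((m γ : ℝ) * Pk δ (y - γ)) * ZZ m δ1 y +
        2 * δ / δ1 * ((m γ : ℝ) * Pk δ1 (y - γ)) * ZZ m δ y) := by
    intro γ
    have hs1 : HasSum (fun γ' => (m γ' : ℝ) * Pk δ (y - γ')) (ZZ m δ y) := s1.hasSum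
    have hs2 : HasSum (fun γ' => (m γ' : ℝ) * Pk δ1 (y - γ')) (ZZ m δ1 y) := s2.hasSum
    exact hasSum_le (pair γ) (hs1.mul_left _)
      (((sind γ).mul_left _).add ((hs2.mul_left _).add (hs1.mul_left _)))
  have hs1 : HasSum (fun γ' => (m γ' : ℝ) * Pk δ (y - γ')) (ZZ m δ y) := s1.hasSum
  have hs2 : HasSum (fun γ' => (m γ' : ℝ) * Pk δ1 (y - γ')) (ZZ m δ1 y) := s2.hasSum
  have hsq : HasSum (fun γ => ((m γ : ℝ) * Pk δ (y - γ)) * q γ)
      (∑ γ ∈ F, ((m γ : ℝ) * Pk δ (y - γ)) * q γ) := by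
    apply hasSum_sum_of_ne_finset_zero
    intro γ hγ
    have : q γ = 0 := by
      rw [hq]
      simp only
      apply Finset.sum_eq_zero
      intro γ' _
      have : ind γ γ' = 0 := by
        rw [hind]
        simp only
        rw [if_neg (fun h => hγ h.1)]
      rw [this, zero_mul]
    rw [this, mul_zero]
  have tot := hasSum_le row (hs1.mul_right (ZZ m δ y))
    (hsq.add (((hs1.mul_left (2 * δ / δ1)).mul_right (ZZ m δ1 y)).add
      ((hs2.mul_left (2 * δ / δ1)).mul_right (ZZ m δ y))))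
  -- the close pairs
  have hclose : ∑ γ ∈ F, ((m γ : ℝ) * Pk δ (y - γ)) * q γ ≤
      ∑ γ ∈ F, (m γ : ℝ) * (nn hm U β γ : ℝ) * Pk δ (y - γ) ^ 2 := by
    have e1 : ∑ γ ∈ F, ((m γ : ℝ) * Pk δ (y - γ)) * q γ =
        ∑ γ ∈ F, ∑ γ' ∈ F, ind γ γ' * (m γ : ℝ) * (m γ' : ℝ) * (Pk δ (y - γ) * Pk δ (y - γ')) := by
      refine Finset.sum_congr rfl fun γ _ => ?_
      rw [hq]
      simp only
      rw [Finset.mul_sum]
      refine Finset.sum_congr rfl fun γ' _ => ?_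
      ring
    have e2 : ∑ γ ∈ F, ∑ γ' ∈ F, ind γ γ' * (m γ : ℝ) * (m γ' : ℝ) * Pk δ (y - γ') ^ 2 =
        ∑ γ ∈ F, ∑ γ' ∈ F, ind γ γ' * (m γ : ℝ) * (m γ' : ℝ) * Pk δ (y - γ) ^ 2 := by
      rw [Finset.sum_comm]
      refine Finset.sum_congr rfl fun γ _ => Finset.sum_congr rfl fun γ' _ => ?_
      have : ind γ' γ = ind γ γ' := by
        rw [hind]
        simp only
        refine if_congr ⟨fun h => ⟨h.2.1, h.1, cl_symm h.2.2⟩, fun h => ⟨h.2.1, h.1, cl_symm h.2.2⟩⟩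
          rfl rfl
      rw [this]
      ring
    have e3 : ∑ γ ∈ F, ∑ γ' ∈ F, ind γ γ' * (m γ : ℝ) * (m γ' : ℝ) * (Pk δ (y - γ) * Pk δ (y - γ')) ≤
        ∑ γ ∈ F, ∑ γ' ∈ F, (1 / 2 * (ind γ γ' * (m γ : ℝ) * (m γ' : ℝ) * Pk δ (y - γ) ^ 2) +
          1 / 2 * (ind γ γ' * (m γ : ℝ) * (m γ' : ℝ) * Pk δ (y - γ') ^ 2)) := by
      refine Finset.sum_le_sum fun γ _ => Finset.sum_le_sum fun γ' _ => ?_
      have h2 : 0 ≤ ind γ γ' * (m γ : ℝ) * (m γ' : ℝ) :=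
        mul_nonneg (mul_nonneg (ind0 _ _) (M0 _)) (M0 _)
      nlinarith [mul_nonneg h2 (sq_nonneg (Pk δ (y - γ) - Pk δ (y - γ')))]
    rw [e1]
    refine e3.trans (le_of_eq ?_)
    simp_rw [Finset.sum_add_distrib, ← Finset.mul_sum]
    rw [e2, ← add_mul]
    norm_num
    refine Finset.sum_congr rfl fun γ hγ => ?_
    unfold nn
    rw [Nat.cast_sum, Finset.mul_sum, Finset.sum_mul, Finset.sum_filter]
    refine Finset.sum_congr rfl fun γ' hγ' => ?_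
    rw [hind]
    simp only
    by_cases h : cl U β γ γ'
    · rw [if_pos ⟨hγ, hγ', h⟩, if_pos h]
      ring
    · rw [if_neg (fun h' => h h'.2.2), if_neg h]
      ring
  have e4 : ZZ m δ y * ZZ m δ y = ZZ m δ y ^ 2 := by ring
  rw [e4] at tot
  refine tot.trans ?_
  have e5 : 2 * δ / δ1 * ZZ m δ y * ZZ m δ1 y + 2 * δ / δ1 * ZZ m δ1 y * ZZ m δ y =
      4 * δ / δ1 * (ZZ m δ y * ZZ m δ1 y) := by ring
  rw [e5]
  linarith

end Pool.Agent.Q102.CP
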