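import Pool.Agent.Q102.CP.CVa

set_option autoImplicit false

/-! # Project CP: few close pairs, the integrals -/

namespace Pool.Agent.Q102.CP

open MeasureTheory Filter Topology Set Complex
open Pool.Agent.Q253.HV Pool.Agent.Q253.LQ Pool.Agent.Q253.CP

variable {f : ℝ → ℂ} {m : ℝ → ℕ} {D A C : ℝ}

lemma Pk_int1 {δ : ℝ} (hδ : 0 < δ) (γ : ℝ) :
    Integrable (fun y => Pk δ (y - γ)) ∧ ∫ y, Pk δ (y - γ) = Real.pi := by
  have e0 : ∀ x : ℝ, Pk δ x = (1 / δ) * (1 + (x / δ) ^ 2)⁻¹ := by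
    intro x
    unfold Pk
    field_simp
  have i1 : Integrable (fun x : ℝ => (1 + (x / δ) ^ 2)⁻¹) :=
    integrable_inv_one_add_sq.comp_div hδ.ne'
  have i2 : Integrable (Pk δ) := by
    refine (i1.const_mul (1 / δ)).congr (Eventually.of_forall fun x => ?_)
    exact (e0 x).symm
  refine ⟨i2.comp_sub_right γ, ?_⟩
  rw [integral_sub_right_eq_self (Pk δ) γ]
  simp_rw [e0]
  rw [integral_const_mul, Measure.integral_comp_div (fun x : ℝ => (1 + x ^ 2)⁻¹) δ,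
    integral_univ_inv_one_add_sq, smul_eq_mul, abs_of_pos hδ]
  field_simp

lemma Pk_le {δ : ℝ} (hδ : 0 < δ) (v : ℝ) : Pk δ v ≤ 1 / δ := by
  unfold Pk
  rw [div_le_div_iff₀ (by positivity) hδ]
  nlinarith [sq_nonneg v]

lemma Fct.P2i (F : Fct f m D A C) {κ σ δ : ℝ} (k0 : 0 < κ) (k4 : κ ≤ 1 / 4) (s0 : 1 / 2 ≤ σ)
    (s1 : σ ≤ 1) (h0 : 0 < δ) (γ : ℝ) : Integrable (fun y => Pk δ (y - γ) ^ 2 * hh κ σ y) := by
  refine ((F.wi κ σ k0 k4 s0 s1).const_mul ((1 / δ) ^ 2)).mono' ?_ ?_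
  · exact ((((Pk_cont h0).comp (continuous_id.sub continuous_const)).pow 2).mul
      (F.wc κ σ k0 k4 s0 s1)).aestronglyMeasurable
  · refine Eventually.of_forall fun y => ?_
    have h1 := hh_nonneg κ σ y
    rw [Real.norm_of_nonneg (by positivity)]
    exact mul_le_mul_of_nonneg_right (pow_le_pow_left₀ (Pk_nonneg h0 _) (Pk_le h0 _) 2) h1

/-- the smoothed weight -/
noncomputable def Wt (κ δ γ : ℝ) : ℝ :=
  2 * δ / Real.pi * ∫ y, Pk δ (y - γ) ^ 2 * hh κ (1 / 2 + δ) y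

lemma Wt_nonneg {κ δ : ℝ} (h0 : 0 < δ) (γ : ℝ) : 0 ≤ Wt κ δ γ := by
  unfold Wt
  have := Real.pi_pos
  have : 0 ≤ ∫ y, Pk δ (y - γ) ^ 2 * hh κ (1 / 2 + δ) y :=
    integral_nonneg fun y => mul_nonneg (sq_nonneg _) (hh_nonneg _ _ _)
  positivity

lemma Fct.hh_le (F : Fct f m D A C) {κ σ : ℝ} (k0 : 0 < κ) (k4 : κ ≤ 1 / 4) (s0 : 1 / 2 ≤ σ)
    (s1 : σ ≤ 1) (y : ℝ) : hh κ σ y ≤ C * κ ^ 2 := by
  have hC := F.C1
  refine (F.wup κ σ y k0 k4 s0 s1).trans ?_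
  rw [div_le_iff₀ (by positivity)]
  have : C * κ ^ 2 * ((1 / κ) ^ 2 + y ^ 2) = C + C * κ ^ 2 * y ^ 2 := by field_simp
  rw [this]
  have : 0 ≤ C * κ ^ 2 * y ^ 2 := by positivity
  linarith

lemma Fct.Wt_le (F : Fct f m D A C) {κ δ : ℝ} (k0 : 0 < κ) (k4 : κ ≤ 1 / 4) (h0 : 0 < δ)
    (h1 : δ ≤ 1 / 4) (γ : ℝ) : Wt κ δ γ ≤ 2 * C * κ ^ 2 := by
  have hC := F.C1
  have hpi := Real.pi_pos
  obtain ⟨i1, e1⟩ := Pk_int1 h0 γ
  have h2 : ∫ y, Pk δ (y - γ) ^ 2 * hh κ (1 / 2 + δ) y ≤ ∫ y, (C * κ ^ 2 / δ) * Pk δ (y - γ) := by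
    refine integral_mono (F.P2i k0 k4 (by linarith) (by linarith) h0 γ) (i1.const_mul _) fun y => ?_
    have h3 := Pk_nonneg h0 (y - γ)
    have h4 : Pk δ (y - γ) ^ 2 ≤ 1 / δ * Pk δ (y - γ) := by
      rw [sq]
      exact mul_le_mul_of_nonneg_right (Pk_le h0 _) h3
    have h5 := F.hh_le k0 k4 (σ := 1 / 2 + δ) (by linarith) (by linarith) y
    calc Pk δ (y - γ) ^ 2 * hh κ (1 / 2 + δ) y ≤ (1 / δ * Pk δ (y - γ)) * (C * κ ^ 2) :=
          mul_le_mul h4 h5 (hh_nonneg _ _ _) (by positivity)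
      _ = _ := by ring
  rw [integral_const_mul, e1] at h2
  unfold Wt
  have h6 := mul_le_mul_of_nonneg_left h2 (show 0 ≤ 2 * δ / Real.pi by positivity)
  refine h6.trans (le_of_eq ?_)
  field_simp

/-- the first moment -/
lemma Fct.zint (F : Fct f m D A C) (S : Sys f m D) (hO : S_KPO) : ∃ C7 : ℝ, 1 ≤ C7 ∧
    ∀ κ δ δ' : ℝ, 0 < κ → κ ≤ 1 / 4 → 0 < δ → δ ≤ 1 / 4 → 0 < δ' → δ' ≤ 1 / 4 →
    Integrable (fun y => ZZ m δ' y * hh κ (1 / 2 + δ) y) ∧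
    |(∫ y, ZZ m δ' y * hh κ (1 / 2 + δ) y) - Real.pi * D * (κ * LL κ)| ≤ C7 * κ := by
  obtain ⟨Ck, hCk, hk⟩ := hO
  obtain ⟨B, hB0, hB⟩ := S.bdd
  have hC := F.C1
  have hA := F.A1
  have hD := F.D1
  have hone : 1 ≤ Ck * B + D / 2 * C + A * (7 + C) := by
    have t1 := mul_nonneg hCk.le hB0
    have t2 : 0 ≤ D / 2 * C := by positivity
    have t3 : 1 * 1 ≤ A * (7 + C) := mul_le_mul hA (by linarith) (by norm_num) (by linarith)
    linarith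
  refine ⟨Ck * B + D / 2 * C + A * (7 + C), hone, ?_⟩
  intro κ δ δ' k0 k4 h0 h1 h0' h1'
  have s0 : (1 : ℝ) / 2 ≤ 1 / 2 + δ := by linarith
  have s1 : 1 / 2 + δ ≤ 1 := by linarith
  obtain ⟨i1, b1⟩ := hk f B κ (1 / 2 + δ) (1 / 2 + δ') S.adm hB0 (fun t ht ht1 => hB t ht (by linarith))
    k0 (by linarith) s0 s1 (by linarith) (by linarith)
  have i1' : Integrable (fun y => RR f δ' y * hh κ (1 / 2 + δ) y) := i1
  have b1' : |∫ y, RR f δ' y * hh κ (1 / 2 + δ) y| ≤ Ck * B * κ := b1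
  have i2 := F.w1i κ (1 / 2 + δ) k0 k4 s0 s1
  have b2 := F.w1 κ (1 / 2 + δ) k0 k4 s0 s1
  have i3 := F.wi κ (1 / 2 + δ) k0 k4 s0 s1
  have b3 := F.w0 κ (1 / 2 + δ) k0 k4 s0 s1
  set h : ℝ → ℝ := hh κ (1 / 2 + δ) with hh'
  have hn : ∀ y, 0 ≤ h y := fun y => hh_nonneg _ _ _
  -- the error
  set E : ℝ → ℝ := fun y => (ZZ m δ' y - D / 2 * lg y - RR f δ' y) * h y with hE
  have hEb : ∀ y, |E y| ≤ A * h y := by
    intro y
    rw [hE]
    simp only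
    rw [abs_mul, abs_of_nonneg (hn y)]
    apply mul_le_mul_of_nonneg_right _ (hn y)
    have := F.rl δ' y h0' h1'
    rw [abs_sub_comm] at this
    exact this
  have iz : Integrable (fun y => ZZ m δ' y * h y) := by
    have j := ((i1'.abs.add (i2.const_mul (D / 2))).add (i3.const_mul A))
    refine j.mono' ?_ ?_
    · exact ((ZZ_cont F.sm h0').mul (F.wc κ _ k0 k4 s0 s1)).aestronglyMeasurable
    · refine Eventually.of_forall fun y => ?_
      have hz := ZZ_nonneg (m := m) h0' y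
      rw [Real.norm_of_nonneg (mul_nonneg hz (hn y))]
      have h2 := hEb y
      rw [hE] at h2
      simp only at h2
      have h3 := (abs_le.1 h2).2
      have h4 := le_abs_self (RR f δ' y * h y)
      simp only [Pi.add_apply]
      linarith
  refine ⟨iz, ?_⟩
  have iE : Integrable E := by
    have j := (iz.sub (i2.const_mul (D / 2))).sub i1'
    refine j.congr (Eventually.of_forall fun y => ?_)
    simp only [Pi.sub_apply, hE]
    ring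
  have e1 : ∫ y, ZZ m δ' y * h y = (∫ y, RR f δ' y * h y) + D / 2 * (∫ y, lg y * h y) + ∫ y, E y := by
    have i12 : Integrable (fun y => RR f δ' y * h y + D / 2 * (lg y * h y)) :=
      i1'.add (i2.const_mul (D / 2))
    rw [← integral_const_mul, ← integral_add i1' (i2.const_mul (D / 2)), ← integral_add i12 iE]
    refine integral_congr_ae (Eventually.of_forall fun y => ?_)
    simp only [hE]
    ring
  have b4 : |∫ y, E y| ≤ A * (7 + C) * κ := by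
    have h2 : |∫ y, E y| ≤ ∫ y, A * h y := by
      refine (abs_integral_le_integral_abs).trans ?_
      exact integral_mono iE.abs (i3.const_mul A) hEb
    rw [integral_const_mul] at h2
    refine h2.trans ?_
    rw [mul_assoc]
    apply mul_le_mul_of_nonneg_left _ (by linarith)
    have h3 := (abs_le.1 b3).2
    have h4 := Real.pi_lt_d2
    have h5 : C * κ ^ 2 ≤ C * κ := by
      apply mul_le_mul_of_nonneg_left _ (by linarith)
      nlinarith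
    nlinarith
  have b5 : |D / 2 * (∫ y, lg y * h y) - Real.pi * D * (κ * LL κ)| ≤ D / 2 * C * κ := by
    have e2 : D / 2 * (∫ y, lg y * h y) - Real.pi * D * (κ * LL κ) =
        D / 2 * ((∫ y, lg y * h y) - 2 * Real.pi * κ * LL κ) := by ring
    have t1 := mul_le_mul_of_nonneg_left b2 (show (0 : ℝ) ≤ D / 2 by positivity)
    rw [e2, abs_mul, abs_of_nonneg (by positivity : (0 : ℝ) ≤ D / 2)]
    linarith
  rw [e1]
  have e3 : (∫ y, RR f δ' y * h y) + D / 2 * (∫ y, lg y * h y) + (∫ y, E y) -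
      Real.pi * D * (κ * LL κ) = (∫ y, RR f δ' y * h y) +
      (D / 2 * (∫ y, lg y * h y) - Real.pi * D * (κ * LL κ)) + ∫ y, E y := by ring
  rw [e3]
  refine (abs_add_le _ _).trans ?_
  have h9 := abs_add_le (∫ y, RR f δ' y * h y)
    (D / 2 * (∫ y, lg y * h y) - Real.pi * D * (κ * LL κ))
  have : (Ck * B + D / 2 * C + A * (7 + C)) * κ = Ck * B * κ + D / 2 * C * κ + A * (7 + C) * κ := by
    ring
  rw [this]
  linarith

lemma Pk_up {δ η : ℝ} (hδ : 0 < δ) (h0 : 0 < η) (h1 : η < 1) (v : ℝ) :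
    Pk δ v ^ 2 ≤ (Pk ((1 - η) * δ) v / ((1 - η) * δ) - Pk δ v / δ) / (2 * η - η ^ 2) := by
  unfold Pk
  have h2 : 0 < 1 - η := by linarith
  have h3 : 0 < 2 * η - η ^ 2 := by nlinarith
  have p1 : 0 < δ ^ 2 + v ^ 2 := by positivity
  have p2 : 0 < ((1 - η) * δ) ^ 2 + v ^ 2 := by positivity
  have e : ((1 - η) * δ / (((1 - η) * δ) ^ 2 + v ^ 2) / ((1 - η) * δ) - δ / (δ ^ 2 + v ^ 2) / δ) /
      (2 * η - η ^ 2) = δ ^ 2 / ((δ ^ 2 + v ^ 2) * (((1 - η) * δ) ^ 2 + v ^ 2)) := by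
    rw [div_eq_iff h3.ne', div_right_comm _ _ ((1 - η) * δ), div_self (by positivity),
      div_right_comm _ _ δ, div_self hδ.ne', div_sub_div _ _ p2.ne' p1.ne', div_mul_eq_mul_div,
      div_eq_div_iff (by positivity) (by positivity)]
    ring
  rw [e, div_pow]
  apply div_le_div_of_nonneg_left (by positivity) (by positivity)
  rw [sq (δ ^ 2 + v ^ 2)]
  apply mul_le_mul_of_nonneg_left _ p1.le
  have : ((1 - η) * δ) ^ 2 ≤ δ ^ 2 := by
    apply pow_le_pow_left₀ (by positivity)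
    nlinarith
  linarith

/-- the diagonal -/
lemma Fct.diag (F : Fct f m D A C) {C7 : ℝ} (h7 : 1 ≤ C7)
    (hz : ∀ κ δ δ' : ℝ, 0 < κ → κ ≤ 1 / 4 → 0 < δ → δ ≤ 1 / 4 → 0 < δ' → δ' ≤ 1 / 4 →
      Integrable (fun y => ZZ m δ' y * hh κ (1 / 2 + δ) y) ∧
      |(∫ y, ZZ m δ' y * hh κ (1 / 2 + δ) y) - Real.pi * D * (κ * LL κ)| ≤ C7 * κ)
    {κ δ η : ℝ} (k0 : 0 < κ) (k4 : κ ≤ 1 / 4) (h0 : 0 < δ) (h1 : δ ≤ 1 / 4) (e0 : 0 < η)
    (e1 : η ≤ 1 / 4) (T : Finset ℝ) :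
    ∑ γ ∈ T, (m γ : ℝ) * Wt κ δ γ ≤ (1 + 4 * η) * (D * (κ * LL κ)) + C7 * κ / η := by
  have hη : 0 < 1 - η := by linarith
  have h3 : 0 < 2 * η - η ^ 2 := by nlinarith
  have hδ' : 0 < (1 - η) * δ := by positivity
  have hδ'4 : (1 - η) * δ ≤ 1 / 4 := by nlinarith
  obtain ⟨i1, b1⟩ := hz κ δ ((1 - η) * δ) k0 k4 h0 h1 hδ' hδ'4
  obtain ⟨i2, b2⟩ := hz κ δ δ k0 k4 h0 h1 h0 h1
  have hpi := Real.pi_gt_three
  have hD := F.D1
  have hL := one_le_LL k0 k4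
  set h : ℝ → ℝ := hh κ (1 / 2 + δ) with hh'
  have hn : ∀ y, 0 ≤ h y := fun y => hh_nonneg _ _ _
  -- pointwise
  have pt : ∀ y, ∑ γ ∈ T, (m γ : ℝ) * (Pk δ (y - γ) ^ 2 * h y) ≤
      ((2 * η - η ^ 2)⁻¹ * ((1 - η) * δ)⁻¹) * (ZZ m ((1 - η) * δ) y * h y) -
      ((2 * η - η ^ 2)⁻¹ * δ⁻¹) * (ZZ m δ y * h y) := by
    intro y
    have s1 := summ F.sm hδ' y
    have s2 := summ F.sm h0 y
    have hsum : HasSum (fun γ : ℝ => (m γ : ℝ) * ((Pk ((1 - η) * δ) (y - γ) / ((1 - η) * δ) -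
        Pk δ (y - γ) / δ) / (2 * η - η ^ 2)))
        ((ZZ m ((1 - η) * δ) y / ((1 - η) * δ) - ZZ m δ y / δ) / (2 * η - η ^ 2)) := by
      have t1 : HasSum (fun γ : ℝ => (m γ : ℝ) * Pk ((1 - η) * δ) (y - γ)) (ZZ m ((1 - η) * δ) y) :=
        s1.hasSum
      have t2 : HasSum (fun γ : ℝ => (m γ : ℝ) * Pk δ (y - γ)) (ZZ m δ y) := s2.hasSum
      refine (((t1.div_const ((1 - η) * δ)).sub (t2.div_const δ)).div_const (2 * η - η ^ 2)).congr_fun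
        fun γ => ?_
      ring
    have h4 : ∑ γ ∈ T, (m γ : ℝ) * Pk δ (y - γ) ^ 2 ≤
        (ZZ m ((1 - η) * δ) y / ((1 - η) * δ) - ZZ m δ y / δ) / (2 * η - η ^ 2) := by
      have h5 : ∀ γ : ℝ, (m γ : ℝ) * Pk δ (y - γ) ^ 2 ≤ (m γ : ℝ) *
          ((Pk ((1 - η) * δ) (y - γ) / ((1 - η) * δ) - Pk δ (y - γ) / δ) / (2 * η - η ^ 2)) :=
        fun γ => mul_le_mul_of_nonneg_left (Pk_up h0 e0 (by linarith) _) (Nat.cast_nonneg _)
      refine (Finset.sum_le_sum fun γ _ => h5 γ).trans ?_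
      exact sum_le_hasSum T (fun γ _ => (mul_nonneg (Nat.cast_nonneg _) (sq_nonneg _)).trans (h5 γ)) hsum
    have h6 := mul_le_mul_of_nonneg_right h4 (hn y)
    rw [Finset.sum_mul] at h6
    calc ∑ γ ∈ T, (m γ : ℝ) * (Pk δ (y - γ) ^ 2 * h y) = ∑ γ ∈ T, (m γ : ℝ) * Pk δ (y - γ) ^ 2 * h y := by
          refine Finset.sum_congr rfl fun γ _ => ?_
          ring
      _ ≤ _ := h6
      _ = _ := by
          field_simp
  have iT : ∀ γ ∈ T, Integrable (fun y => (m γ : ℝ) * (Pk δ (y - γ) ^ 2 * h y)) := fun γ _ =>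
    (F.P2i k0 k4 (by linarith) (by linarith) h0 γ).const_mul _
  have iS : Integrable (fun y => ((2 * η - η ^ 2)⁻¹ * ((1 - η) * δ)⁻¹) * (ZZ m ((1 - η) * δ) y * h y) -
      ((2 * η - η ^ 2)⁻¹ * δ⁻¹) * (ZZ m δ y * h y)) := (i1.const_mul _).sub (i2.const_mul _)
  have h8 := integral_mono (integrable_finsetSum T iT) iS pt
  rw [integral_finsetSum T iT, integral_sub (i1.const_mul _) (i2.const_mul _), integral_const_mul,
    integral_const_mul] at h8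
  simp_rw [integral_const_mul] at h8
  have c1 := (abs_le.1 b1).2
  have c2 := (abs_le.1 b2).1
  set X := Real.pi * D * (κ * LL κ) with hX
  have h9 : ∑ γ ∈ T, (m γ : ℝ) * ∫ y, Pk δ (y - γ) ^ 2 * h y ≤
      ((2 * η - η ^ 2)⁻¹ * ((1 - η) * δ)⁻¹) * (X + C7 * κ) -
      ((2 * η - η ^ 2)⁻¹ * δ⁻¹) * (X - C7 * κ) := by
    have q1 : 0 ≤ (2 * η - η ^ 2)⁻¹ * ((1 - η) * δ)⁻¹ := by positivity
    have q2 : 0 ≤ (2 * η - η ^ 2)⁻¹ * δ⁻¹ := by positivity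
    have r1 := mul_le_mul_of_nonneg_left (show (∫ y, ZZ m ((1 - η) * δ) y * h y) ≤ X + C7 * κ by linarith) q1
    have r2 := mul_le_mul_of_nonneg_left (show X - C7 * κ ≤ (∫ y, ZZ m δ y * h y) by linarith) q2
    linarith
  have h10 : ∑ γ ∈ T, (m γ : ℝ) * Wt κ δ γ = 2 * δ / Real.pi *
      ∑ γ ∈ T, (m γ : ℝ) * ∫ y, Pk δ (y - γ) ^ 2 * h y := by
    rw [Finset.mul_sum]
    refine Finset.sum_congr rfl fun γ _ => ?_
    unfold Wt
    ring
  rw [h10]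
  have h11 := mul_le_mul_of_nonneg_left h9 (show 0 ≤ 2 * δ / Real.pi by positivity)
  refine h11.trans ?_
  have e2 : 2 * δ / Real.pi * (((2 * η - η ^ 2)⁻¹ * ((1 - η) * δ)⁻¹) * (X + C7 * κ) -
      ((2 * η - η ^ 2)⁻¹ * δ⁻¹) * (X - C7 * κ)) =
      2 / ((1 - η) * (2 - η)) * (X / Real.pi) + 2 / Real.pi / (1 - η) * (C7 * κ / η) := by
    have : 2 * η - η ^ 2 = η * (2 - η) := by ring
    rw [this]
    have h12 : (2 - η) ≠ 0 := by linarith
    field_simp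
    ring
  rw [e2]
  have e3 : X / Real.pi = D * (κ * LL κ) := by
    rw [hX]
    field_simp
  rw [e3]
  have h13 : 2 / ((1 - η) * (2 - η)) ≤ 1 + 4 * η := by
    rw [div_le_iff₀ (by nlinarith)]
    nlinarith [mul_pos e0 e0, mul_pos (mul_pos e0 e0) e0]
  have h14 : 2 / Real.pi / (1 - η) ≤ 1 := by
    rw [div_div, div_le_one (by positivity)]
    nlinarith
  have h15 : 0 ≤ D * (κ * LL κ) := by positivity
  have h16 : 0 ≤ C7 * κ / η := by positivity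
  have h17 := mul_le_mul_of_nonneg_right h13 h15
  have h18 := mul_le_mul_of_nonneg_right h14 h16
  linarith

end Pool.Agent.Q102.CP
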