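import Pool.Agent.Q102.CP.CV

set_option autoImplicit false

/-! # Project CP: few close pairs give the upper bound, end of the proof -/

namespace Pool.Agent.Q102.CP

open MeasureTheory Filter Topology Set Complex
open Pool.Agent.Q253.HV Pool.Agent.Q253.LQ Pool.Agent.Q253.CP

lemma inv_top' {c : ℝ} (hc : 0 < c) : Tendsto (fun κ : ℝ => c / κ) (𝓝[>] 0) atTop := by
  have h := (tendsto_inv_nhdsGT_zero (𝕜 := ℝ)).const_mul_atTop hc
  refine h.congr fun κ => ?_
  ring

lemma LL_top : Tendsto LL (𝓝[>] 0) atTop := by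
  unfold LL
  exact Real.tendsto_log_atTop.comp (inv_top' one_pos)

theorem t_CV (h1 : S_KPL) (h2 : S_KPO) (h3 : S_WT) (_ : Pool.Agent.Q253.CP.S_TB) : S_CV := by
  intro f m D S hP ε hε
  obtain ⟨A, C, F⟩ := fct h1 h3 S
  obtain ⟨C5, hC5, h5⟩ := F.full2
  obtain ⟨C7, h7, hz⟩ := F.zint S h2
  have hC := F.C1
  have hD := F.D1
  have hAA := F.AA1
  have hAA2 : 1 ≤ AA A D ^ 2 := one_le_pow₀ hAA
  have hpi := Real.pi_gt_three
  have hpi4 := Real.pi_le_four
  obtain ⟨e, he⟩ : ∃ e, e = min ε 1 := ⟨_, rfl⟩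
  have e0 : 0 < e := by rw [he]; exact lt_min hε one_pos
  have e1 : e ≤ 1 := by rw [he]; exact min_le_right _ _
  have eε : e ≤ ε := by rw [he]; exact min_le_left _ _
  obtain ⟨Y, hYd⟩ : ∃ Y, Y = 64 * C * C5 / e + 1 := ⟨_, rfl⟩
  have hY1 : 1 ≤ Y := by
    rw [hYd]
    have : 0 ≤ 64 * C * C5 / e := by positivity
    linarith
  have hYp : 0 < Y := by linarith
  have hYe : 64 * C * C5 ≤ e * Y := by
    rw [hYd, mul_add, mul_div_cancel₀ _ e0.ne']
    linarith
  obtain ⟨ε', hε'd⟩ : ∃ ε', ε' = e / (128 * C * Y) := ⟨_, rfl⟩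
  have hε' : 0 < ε' := by rw [hε'd]; positivity
  obtain ⟨β0, hβ0, hev⟩ := hP ε' hε'
  obtain ⟨β, hβd⟩ : ∃ β, β = min β0 1 := ⟨_, rfl⟩
  have hβ : 0 < β := by rw [hβd]; exact lt_min hβ0 one_pos
  have hβ1 : β ≤ 1 := by rw [hβd]; exact min_le_right _ _
  have hββ : β ≤ β0 := by rw [hβd]; exact min_le_left _ _
  refine ⟨min (e * β / (64 * C * (C5 + 1))) (e ^ 2 / (80 * AA A D ^ 2 * C)), lt_min (by positivity)
    (by positivity), ?_⟩
  intro a ha haa
  have ha1 : a ≤ e * β / (64 * C * (C5 + 1)) := haa.trans (min_le_left _ _)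
  have ha2 : a ≤ e ^ 2 / (80 * AA A D ^ 2 * C) := haa.trans (min_le_right _ _)
  have hCC : 1 ≤ C * (C5 + 1) := by
    have := mul_nonneg (show 0 ≤ C by linarith) hC5
    linarith
  have haβ : a ≤ β := by
    refine ha1.trans ?_
    rw [div_le_iff₀ (by positivity)]
    have t1 : e * β ≤ 1 * β := mul_le_mul_of_nonneg_right e1 hβ.le
    have t2 : β * 1 ≤ β * (C * (C5 + 1)) := mul_le_mul_of_nonneg_left hCC hβ.le
    linarith
  -- eventually
  have evN : ∀ᶠ U : ℝ in atTop, (Nm m U : ℝ) / (U * Real.log U) < D := by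
    apply S.nt.eventually_lt_const
    rw [div_lt_iff₀ (by linarith)]
    have := mul_lt_mul_of_pos_left hpi (show 0 < D by linarith)
    linarith
  filter_upwards [self_mem_nhdsWithin, LL_top.eventually_ge_atTop 24,
    LL_top.eventually_ge_atTop (Real.log (2 * Y)), LL_top.eventually_ge_atTop (16 * 64 * C7 / e ^ 2),
    (inv_top' (show 0 < 2 * Y by positivity)).eventually evN,
    (inv_top' (show 0 < 2 * Y by positivity)).eventually hev] with κ hκ hL24 hLY hL7 hN hPm
  have k0 : 0 < κ := hκ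
  have hLp : 0 < LL κ := by linarith
  have kb : κ ≤ Real.exp (-24) := by
    unfold LL at hL24
    rw [one_div, Real.log_inv] at hL24
    have h8 : Real.log κ ≤ -24 := by linarith
    exact (Real.log_le_iff_le_exp k0).1 h8
  have hk14 : Real.exp (-24) ≤ 1 / 4 := by
    rw [Real.exp_neg, inv_eq_one_div]
    apply one_div_le_one_div_of_le (by norm_num)
    have := Real.add_one_le_exp (24 : ℝ)
    linarith
  have k4 : κ ≤ 1 / 4 := kb.trans hk14
  set L := LL κ with hLd
  set δ := a / L with hδ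
  set δ1 := Real.pi * β / (2 * L) with hδ1
  set U := 2 * Y / κ with hU
  set η := e / 64 with hη
  have η0 : 0 < η := by positivity
  have η1 : η ≤ 1 / 4 := by rw [hη]; linarith
  have h0 : 0 < δ := by positivity
  have hd1 : 0 < δ1 := by positivity
  have hδL : δ * L = a := by rw [hδ]; field_simp
  have hδ1L : δ1 * L = Real.pi * β / 2 := by rw [hδ1]; field_simp
  have hd : δ ≤ 1 / 4 := by
    rw [hδ, div_le_iff₀ hLp]
    linarith
  have hπβ : Real.pi * β ≤ 4 * 1 := mul_le_mul hpi4 hβ1 hβ.le (by norm_num)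
  have hd14 : δ1 ≤ 1 / 4 := by
    rw [hδ1, div_le_iff₀ (by positivity)]
    linarith
  have hU0 : 0 < U := by positivity
  have hlogU : Real.log U = Real.log (2 * Y) + L := by
    rw [hU, hLd]
    unfold LL
    rw [div_eq_mul_one_div, Real.log_mul (by positivity) (by positivity)]
  have hlog2Y : 0 ≤ Real.log (2 * Y) := Real.log_nonneg (by linarith)
  have hlogU0 : 0 < Real.log U := by rw [hlogU]; linarith
  have hlogU2 : Real.log U ≤ 2 * L := by rw [hlogU]; linarith
  have hLκ' : LL (κ / Y) ≤ 2 * L := by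
    have h8 : LL (κ / Y) = Real.log Y + L := by
      rw [hLd]
      unfold LL
      rw [one_div_div, div_eq_mul_one_div, Real.log_mul (by positivity) (by positivity)]
    have h9 : Real.log Y ≤ Real.log (2 * Y) := Real.log_le_log hYp (by linarith)
    rw [h8]
    linarith
  have hc : ∀ γ γ' : ℝ, ¬ cl U β γ γ' → 2 * δ1 ≤ |γ - γ'| := by
    intro γ γ' hcl
    unfold cl at hcl
    rw [not_le, lt_div_iff₀ (by positivity)] at hcl
    have h8 : |γ - γ'| * Real.log U ≤ |γ - γ'| * (2 * L) :=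
      mul_le_mul_of_nonneg_left hlogU2 (abs_nonneg _)
    have h9 : 2 * δ1 = Real.pi * β / L := by rw [hδ1]; field_simp
    rw [h9, div_le_iff₀ hLp]
    linarith
  have tot := F.total h5 (κ := κ) (κ' := κ / Y) (δ := δ) (δ1 := δ1) (Y := Y) (U := U) (β := β) k0 kb
    hY1 rfl rfl h0 hd hd1 hd14 (by rw [← hLd, hδL]; linarith) (by rw [← hLd, hδ1L]; linarith)
    (by
      have h8 := mul_le_mul_of_nonneg_left hLκ' h0.le
      have h9 : δ * (2 * L) = 2 * a := by rw [← hδL]; ring
      linarith) hc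
  have clo := F.close h7 hz (κ := κ) (δ := δ) (η := η) (U := U) (β := β) k0 k4 h0 hd η0 η1 hβ.le
  have jup := F.J_up (κ := κ) (δ := δ) (e1 := e / 8) k0 k4 h0 hd (by positivity)
  rw [← hLd] at tot clo jup
  set Sg := ∑ γ ∈ FF F.sm U, (m γ : ℝ) * (nn F.sm U β γ : ℝ) *
        ∫ y, Pk δ (y - γ) ^ 2 * hh κ (1 / 2 + δ) y with hSg
  set I := ∫ y, ZZ m δ y ^ 2 * hh κ (1 / 2 + δ) y with hI
  -- the pairs
  have hpair : 2 * C * κ ^ 2 * ((Pm m U β : ℝ) - (Nm m U : ℝ)) ≤ e / 16 * (D * (κ * L)) := by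
    have g1 : (Pm m U β : ℝ) ≤ (Pm m U β0 : ℝ) := by exact_mod_cast Pm_mono F.sm hββ
    have g2 : (Pm m U β : ℝ) - (Nm m U : ℝ) ≤ ε' * (Nm m U : ℝ) := by linarith
    have g3 : (Nm m U : ℝ) ≤ D * (U * (2 * L)) := by
      have g4 := (div_lt_iff₀ (by positivity : 0 < U * Real.log U)).1 hN
      have g5 := mul_le_mul_of_nonneg_left (mul_le_mul_of_nonneg_left hlogU2 hU0.le)
        (show 0 ≤ D by linarith)
      linarith
    have g6 : (Pm m U β : ℝ) - (Nm m U : ℝ) ≤ ε' * (D * (U * (2 * L))) :=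
      g2.trans (mul_le_mul_of_nonneg_left g3 hε'.le)
    have g7 := mul_le_mul_of_nonneg_left g6 (show 0 ≤ 2 * C * κ ^ 2 by positivity)
    refine g7.trans (le_of_eq ?_)
    rw [hε'd, hU]
    field_simp
    ring
  have hdiag : C7 * κ / η ≤ e / 16 * (κ * L) := by
    rw [hη, div_le_iff₀ (by positivity)]
    have g1 : 16 * 64 * C7 ≤ e ^ 2 * L := by
      rw [div_le_iff₀ (by positivity)] at hL7
      linarith
    have g2 := mul_le_mul_of_nonneg_left g1 k0.le
    have g3 : e / 16 * (κ * L) * (e / 64) = κ * (e ^ 2 * L) / (16 * 64) := by ring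
    rw [g3, le_div_iff₀ (by norm_num)]
    linarith
  -- the cross terms
  set ρ := δ / δ1 with hρ
  have hρ0 : 0 < ρ := by positivity
  have hρa : ρ ≤ a / β := by
    rw [hρ, hδ, hδ1, div_div_eq_mul_div, div_le_div_iff₀ (by positivity) hβ]
    have : a / L * (2 * L) = 2 * a := by field_simp
    rw [this]
    have t1 := mul_le_mul_of_nonneg_left hpi.le (mul_pos ha hβ).le
    have t2 := mul_pos ha hβ
    linarith
  have hρ1 : ρ ≤ 1 := hρa.trans (by rw [div_le_one hβ]; exact haβ)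
  have hcross : 2 * δ / Real.pi * (2 * δ / δ1 * C * (C5 * (κ * L / δ) + C5 * (κ * L / δ1))) ≤
      e / 16 * (κ * L) := by
    have g1 : 2 * δ / Real.pi * (2 * δ / δ1 * C * (C5 * (κ * L / δ) + C5 * (κ * L / δ1))) =
        4 / Real.pi * (C * C5 * (ρ * (1 + ρ))) * (κ * L) := by
      rw [hρ]
      field_simp
      ring
    rw [g1]
    apply mul_le_mul_of_nonneg_right _ (by positivity)
    have g2 : 4 / Real.pi ≤ 3 / 2 := by
      rw [div_le_div_iff₀ (by linarith) (by norm_num)]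
      linarith
    have g3 : C * C5 * (ρ * (1 + ρ)) ≤ C * C5 * (2 * ρ) := by
      apply mul_le_mul_of_nonneg_left _ (by positivity)
      have := mul_le_mul_of_nonneg_left hρ1 hρ0.le
      linarith
    have g4 : 4 / Real.pi * (C * C5 * (ρ * (1 + ρ))) ≤ 3 / 2 * (C * C5 * (2 * ρ)) :=
      mul_le_mul g2 g3 (by positivity) (by norm_num)
    have g5 : C * C5 * ρ ≤ e / 64 := by
      have g6 : ρ ≤ e / (64 * C * (C5 + 1)) := by
        refine hρa.trans ?_
        rw [div_le_iff₀ hβ]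
        refine ha1.trans (le_of_eq ?_)
        ring
      have g7 := mul_le_mul_of_nonneg_left g6 (show 0 ≤ C * C5 by positivity)
      refine g7.trans ?_
      have g8 : C * C5 * (e / (64 * C * (C5 + 1))) = e / 64 * (C5 / (C5 + 1)) := by
        field_simp
      rw [g8]
      apply mul_le_of_le_one_right (by positivity)
      rw [div_le_one (by linarith)]
      linarith
    linarith
  have hfar : 2 * δ / Real.pi * (2 * C * (C5 * (κ / Y * LL (κ / Y) / δ))) ≤ e / 16 * (κ * L) := by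
    have g1 : 2 * δ / Real.pi * (2 * C * (C5 * (κ / Y * LL (κ / Y) / δ))) =
        4 / Real.pi * (C * C5 / Y) * (κ * LL (κ / Y)) := by
      field_simp
      ring
    rw [g1]
    have g2 : 4 / Real.pi ≤ 2 := by
      rw [div_le_iff₀ (by linarith)]
      linarith
    have g3 : C * C5 / Y ≤ e / 64 := by
      rw [div_le_iff₀ hYp]
      linarith
    have g4 : 4 / Real.pi * (C * C5 / Y) ≤ 2 * (e / 64) :=
      mul_le_mul g2 g3 (by positivity) (by norm_num)
    have g5 : κ * LL (κ / Y) ≤ κ * (2 * L) := mul_le_mul_of_nonneg_left hLκ' k0.le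
    have g6 : 0 ≤ κ * LL (κ / Y) := by
      have h8 : LL (κ / Y) = Real.log Y + L := by
        rw [hLd]
        unfold LL
        rw [one_div_div, div_eq_mul_one_div, Real.log_mul (by positivity) (by positivity)]
      have h9 : 0 ≤ Real.log Y := Real.log_nonneg hY1
      rw [h8]
      positivity
    have g7 := mul_le_mul g4 g5 g6 (by positivity : (0 : ℝ) ≤ 2 * (e / 64))
    refine g7.trans (le_of_eq ?_)
    ring
  -- together
  have hX : 0 ≤ κ * L := by positivity
  have hXD : κ * L ≤ D * (κ * L) := le_mul_of_one_le_left hX hD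
  have hG : 2 * δ / Real.pi * I ≤ (1 + 5 * e / 16) * (D * (κ * L)) := by
    have g1 := mul_le_mul_of_nonneg_left tot (show 0 ≤ 2 * δ / Real.pi by positivity)
    rw [mul_add, mul_add] at g1
    have g2 : e / 16 * (κ * L) ≤ e / 16 * (D * (κ * L)) := mul_le_mul_of_nonneg_left hXD (by positivity)
    have g3 : (1 + 4 * η) * (D * (κ * L)) = D * (κ * L) + e / 16 * (D * (κ * L)) := by
      rw [hη]
      ring
    have g4 : (1 + 5 * e / 16) * (D * (κ * L)) = D * (κ * L) + 5 * (e / 16 * (D * (κ * L))) := by ring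
    rw [g4]
    linarith
  have hfin1 : 2 * a * ((1 + e / 8) * (1 / Real.pi * I)) ≤
      (1 + e / 2) * (D * (κ * L ^ 2)) := by
    have g1 : 2 * a * ((1 + e / 8) * (1 / Real.pi * I)) = (1 + e / 8) * L * (2 * δ / Real.pi * I) := by
      rw [← hδL]
      ring
    rw [g1]
    have g2 := mul_le_mul_of_nonneg_left hG (show 0 ≤ (1 + e / 8) * L by positivity)
    refine g2.trans ?_
    have g3 : (1 + e / 8) * L * ((1 + 5 * e / 16) * (D * (κ * L))) =
        ((1 + e / 8) * (1 + 5 * e / 16)) * (D * (κ * L ^ 2)) := by ring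
    rw [g3]
    apply mul_le_mul_of_nonneg_right _ (by positivity)
    have t1 : e * e ≤ e * 1 := mul_le_mul_of_nonneg_left e1 e0.le
    linarith
  have hfin2 : 2 * a * (((1 + 1 / (e / 8)) * AA A D ^ 2 * C + C) * (κ * L ^ 2)) ≤
      e / 4 * (D * (κ * L ^ 2)) := by
    have g0 : 0 ≤ κ * L ^ 2 := by positivity
    have g1 : (1 + 1 / (e / 8)) * AA A D ^ 2 * C + C ≤ 10 * (AA A D ^ 2 * C) / e := by
      rw [le_div_iff₀ e0]
      have g2 : ((1 + 1 / (e / 8)) * AA A D ^ 2 * C + C) * e = (e + 8) * (AA A D ^ 2 * C) + C * e := by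
        field_simp
      rw [g2]
      have g3 : C ≤ AA A D ^ 2 * C := le_mul_of_one_le_left (by linarith) hAA2
      have g4 : C * e ≤ AA A D ^ 2 * C := by
        have := mul_le_mul_of_nonneg_left e1 (show 0 ≤ C by linarith)
        linarith
      have g5 : (e + 8) * (AA A D ^ 2 * C) ≤ 9 * (AA A D ^ 2 * C) :=
        mul_le_mul_of_nonneg_right (by linarith) (by positivity)
      linarith
    have g2 : 2 * a * ((1 + 1 / (e / 8)) * AA A D ^ 2 * C + C) ≤ e / 4 := by
      have g3 := mul_le_mul_of_nonneg_left g1 (show 0 ≤ 2 * a by positivity)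
      refine g3.trans ?_
      have g4 : 2 * a * (10 * (AA A D ^ 2 * C) / e) = a * (20 * AA A D ^ 2 * C / e) := by ring
      rw [g4]
      have g5 := mul_le_mul_of_nonneg_right ha2 (show 0 ≤ 20 * AA A D ^ 2 * C / e by positivity)
      refine g5.trans (le_of_eq ?_)
      field_simp
      norm_num
    calc 2 * a * (((1 + 1 / (e / 8)) * AA A D ^ 2 * C + C) * (κ * L ^ 2)) =
          (2 * a * ((1 + 1 / (e / 8)) * AA A D ^ 2 * C + C)) * (κ * L ^ 2) := by ring
      _ ≤ e / 4 * (κ * L ^ 2) := mul_le_mul_of_nonneg_right g2 g0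
      _ ≤ e / 4 * (D * (κ * L ^ 2)) := by
          apply mul_le_mul_of_nonneg_left _ (by positivity)
          exact le_mul_of_one_le_left g0 hD
  have hJ := mul_le_mul_of_nonneg_left jup (show 0 ≤ 2 * a by positivity)
  rw [mul_add] at hJ
  have hXX : 0 ≤ D * (κ * L ^ 2) := by positivity
  have hlast : (1 + e) * (D * (κ * L ^ 2)) ≤ (1 + ε) * (D * (κ * L ^ 2)) :=
    mul_le_mul_of_nonneg_right (by linarith) hXX
  have hX4 := mul_nonneg e0.le hXX
  linarith

end Pool.Agent.Q102.CP
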