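import Pool.Agent.Q102.CP.ZZ

set_option autoImplicit false

/-! # Project CP: the facts used for the mean squares -/

namespace Pool.Agent.Q102.CP

open MeasureTheory Filter Topology Set Complex
open Pool.Agent.Q253.HV Pool.Agent.Q253.LQ Pool.Agent.Q253.CP

/-- the real part -/
noncomputable def RR (f : ℝ → ℂ) (δ y : ℝ) : ℝ := (ld f (pt (1 / 2 + δ) y)).re

/-- `log (2 + |y|)` -/
noncomputable def lg (y : ℝ) : ℝ := Real.log (2 + |y|)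

lemma lg_ge (y : ℝ) : 1 / 2 ≤ lg y := by
  have h1 : Real.log 2 ≤ lg y := Real.log_le_log (by norm_num) (by linarith [abs_nonneg y])
  linarith [Real.log_two_gt_d9]

lemma lg_cont : Continuous lg := by
  unfold lg
  refine Continuous.log (by fun_prop) fun y => ?_
  have := abs_nonneg y
  positivity

/-- the facts -/
structure Fct (f : ℝ → ℂ) (m : ℝ → ℕ) (D A C : ℝ) : Prop where
  A1 : 1 ≤ A
  C1 : 1 ≤ C
  D1 : 1 ≤ D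
  sm : SM m
  meas : Measurable f
  kpi : ∀ κ δ : ℝ, 0 < κ → κ ≤ 1 / 4 → 0 < δ → δ ≤ 1 / 4 →
    IntegrableOn (fun t => ‖f (t + κ) - f t‖ ^ 2 * Real.exp (-((1 + 2 * δ) * t))) (Ioi 0)
  kpr : ∀ κ δ : ℝ, 0 < κ → κ ≤ 1 / 4 → 0 < δ → δ ≤ 1 / 4 →
    Integrable (fun y => RR f δ y ^ 2 * hh κ (1 / 2 + δ) y)
  kp : ∀ κ δ : ℝ, 0 < κ → κ ≤ 1 / 4 → 0 < δ → δ ≤ 1 / 4 →
    |Jt f κ δ - (1 / Real.pi) * ∫ y : ℝ, RR f δ y ^ 2 * hh κ (1 / 2 + δ) y| ≤ C * κ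
  wc : ∀ κ σ : ℝ, 0 < κ → κ ≤ 1 / 4 → 1 / 2 ≤ σ → σ ≤ 1 → Continuous (hh κ σ)
  wi : ∀ κ σ : ℝ, 0 < κ → κ ≤ 1 / 4 → 1 / 2 ≤ σ → σ ≤ 1 → Integrable (hh κ σ)
  w0 : ∀ κ σ : ℝ, 0 < κ → κ ≤ 1 / 4 → 1 / 2 ≤ σ → σ ≤ 1 →
    |(∫ y, hh κ σ y) - 2 * Real.pi * κ| ≤ C * κ ^ 2
  w1i : ∀ κ σ : ℝ, 0 < κ → κ ≤ 1 / 4 → 1 / 2 ≤ σ → σ ≤ 1 →
    Integrable (fun y => lg y * hh κ σ y)
  w1 : ∀ κ σ : ℝ, 0 < κ → κ ≤ 1 / 4 → 1 / 2 ≤ σ → σ ≤ 1 →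
    |(∫ y, lg y * hh κ σ y) - 2 * Real.pi * κ * LL κ| ≤ C * κ
  w2i : ∀ κ σ : ℝ, 0 < κ → κ ≤ 1 / 4 → 1 / 2 ≤ σ → σ ≤ 1 →
    Integrable (fun y => lg y ^ 2 * hh κ σ y)
  w2 : ∀ κ σ : ℝ, 0 < κ → κ ≤ 1 / 4 → 1 / 2 ≤ σ → σ ≤ 1 →
    ∫ y, lg y ^ 2 * hh κ σ y ≤ C * κ * LL κ ^ 2
  wlo : ∀ κ σ y : ℝ, 0 < κ → κ ≤ 1 / 4 → 1 / 2 ≤ σ → σ ≤ 1 →
    κ ^ 2 * Real.sinc (κ * y / 2) ^ 2 ≤ hh κ σ y
  wup : ∀ κ σ y : ℝ, 0 < κ → κ ≤ 1 / 4 → 1 / 2 ≤ σ → σ ≤ 1 →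
    hh κ σ y ≤ C / ((1 / κ) ^ 2 + y ^ 2)
  w4 : ∀ κ σ σ' y : ℝ, 0 < κ → κ ≤ 1 / 4 → 1 / 2 ≤ σ' → σ' ≤ σ → σ ≤ 1 →
    hh κ σ' y ≤ 4 * hh κ σ y
  rl : ∀ δ y : ℝ, 0 < δ → δ ≤ 1 / 4 → |RR f δ y - (ZZ m δ y - D / 2 * lg y)| ≤ A
  nr : ∀ κ : ℝ, 0 < κ → κ ≤ 1 / 4 →
    ∫ t in (0 : ℝ)..(LL κ), ‖f (t + κ) - f t‖ ^ 2 * Real.exp (-t) ≤ C * κ * LL κ ^ 2

lemma hh_nonneg (κ σ y : ℝ) : 0 ≤ hh κ σ y := by unfold hh; positivity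

theorem fct (h1 : S_KPL) (h2 : S_WT) {f : ℝ → ℂ} {m : ℝ → ℕ} {D : ℝ} (S : Sys f m D) :
    ∃ A C : ℝ, Fct f m D A C := by
  obtain ⟨Ck, hCk, hk⟩ := h1
  obtain ⟨Cw, hCw, hw⟩ := h2
  obtain ⟨B, hB0, hB⟩ := S.bdd
  obtain ⟨Cr, hr⟩ := S.rl
  obtain ⟨Cn, hn⟩ := S.nr
  have hLL : ∀ κ : ℝ, 0 < κ → κ ≤ 1 / 4 → 0 ≤ LL κ := by
    intro κ h0 h4
    unfold LL
    apply Real.log_nonneg
    rw [le_div_iff₀ h0]
    linarith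
  set C : ℝ := 1 + Ck * B ^ 2 + Cw + |Cn| with hC
  have hkB : 0 ≤ Ck * B ^ 2 := by positivity
  have hCn := abs_nonneg Cn
  have c1 : Ck * B ^ 2 ≤ C := by linarith
  have c2 : Cw ≤ C := by linarith
  have c3 : Cn ≤ C := by linarith [le_abs_self Cn]
  have hkk := fun (κ δ : ℝ) (a1 : 0 < κ) (a2 : κ ≤ 1 / 4) (a3 : 0 < δ) (a4 : δ ≤ 1 / 4) =>
    hk f B κ (1 / 2 + δ) S.adm hB0 (fun t ht ht1 => hB t ht (by linarith)) a1 (by linarith)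
      (by linarith) (by linarith)
  have hexp : ∀ δ t : ℝ, Real.exp (-(2 * (1 / 2 + δ) * t)) = Real.exp (-((1 + 2 * δ) * t)) := by
    intro δ t
    congr 1
    ring
  refine ⟨1 + |Cr|, C, ?_⟩
  refine
    { A1 := by linarith [abs_nonneg Cr]
      C1 := by linarith
      D1 := S.D1
      sm := S.sm
      meas := S.meas
      kpi := ?_
      kpr := ?_
      kp := ?_
      wc := fun κ σ a1 a2 a3 a4 => (hw κ σ a1 a2 a3 a4).1.1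
      wi := fun κ σ a1 a2 a3 a4 => (hw κ σ a1 a2 a3 a4).1.2.1
      w0 := fun κ σ a1 a2 a3 a4 => (hw κ σ a1 a2 a3 a4).1.2.2.trans
        (mul_le_mul_of_nonneg_right c2 (by positivity))
      w1i := fun κ σ a1 a2 a3 a4 => (hw κ σ a1 a2 a3 a4).2.1.1
      w1 := fun κ σ a1 a2 a3 a4 => (hw κ σ a1 a2 a3 a4).2.1.2.trans
        (mul_le_mul_of_nonneg_right c2 a1.le)
      w2i := fun κ σ a1 a2 a3 a4 => (hw κ σ a1 a2 a3 a4).2.2.1.1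
      w2 := fun κ σ a1 a2 a3 a4 => (hw κ σ a1 a2 a3 a4).2.2.1.2.trans
        (mul_le_mul_of_nonneg_right (mul_le_mul_of_nonneg_right c2 a1.le) (by positivity))
      wlo := fun κ σ y a1 a2 a3 a4 => (hw κ σ a1 a2 a3 a4).2.2.2.1 y
      wup := fun κ σ y a1 a2 a3 a4 => ((hw κ σ a1 a2 a3 a4).2.2.2.2.1 y).trans
        (div_le_div_of_nonneg_right c2 (by positivity))
      w4 := fun κ σ σ' y a1 a2 a3 a4 a5 => (hw κ σ a1 a2 (a3.trans a4) a5).2.2.2.2.2 σ' y a3 a4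
      rl := ?_
      nr := ?_ }
  · intro κ δ a1 a2 a3 a4
    have := (hkk κ δ a1 a2 a3 a4).1
    simpa only [hexp] using this
  · intro κ δ a1 a2 a3 a4
    exact (hkk κ δ a1 a2 a3 a4).2.1
  · intro κ δ a1 a2 a3 a4
    have := (hkk κ δ a1 a2 a3 a4).2.2
    simp only [hexp] at this
    exact this.trans (mul_le_mul_of_nonneg_right c1 a1.le)
  · intro δ y a1 a2
    refine (hr δ y a1 a2).trans ?_
    linarith [le_abs_self Cr]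
  · intro κ a1 a2
    refine (hn κ a1 a2).trans ?_
    exact mul_le_mul_of_nonneg_right (mul_le_mul_of_nonneg_right c3 a1.le) (sq_nonneg _)

variable {f : ℝ → ℂ} {m : ℝ → ℕ} {D A C : ℝ}

lemma one_le_LL {κ : ℝ} (h0 : 0 < κ) (h4 : κ ≤ 1 / 4) : 1 ≤ LL κ := by
  unfold LL
  rw [Real.le_log_iff_exp_le (by positivity)]
  have h1 := Real.exp_one_lt_d9
  have h2 : 4 ≤ 1 / κ := by
    rw [le_div_iff₀ h0]
    linarith
  linarith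

/-- the constant in the comparison of `RR` and `ZZ` -/
noncomputable def AA (A D : ℝ) : ℝ := 2 * A + D / 2

lemma Fct.AA1 (F : Fct f m D A C) : 1 ≤ AA A D := by
  have := F.A1
  have := F.D1
  unfold AA
  linarith

lemma Fct.rl2 (F : Fct f m D A C) {δ : ℝ} (y : ℝ) (h0 : 0 < δ) (h1 : δ ≤ 1 / 4) :
    |RR f δ y - ZZ m δ y| ≤ AA A D * lg y := by
  have h2 := F.rl δ y h0 h1
  have h3 := lg_ge y
  have h4 := F.A1
  have h5 := F.D1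
  have e : RR f δ y - ZZ m δ y = (RR f δ y - (ZZ m δ y - D / 2 * lg y)) - D / 2 * lg y := by ring
  rw [e]
  have h6 : |(RR f δ y - (ZZ m δ y - D / 2 * lg y)) - D / 2 * lg y| ≤
      |RR f δ y - (ZZ m δ y - D / 2 * lg y)| + |D / 2 * lg y| := abs_sub _ _
  have h7 : |D / 2 * lg y| = D / 2 * lg y := abs_of_nonneg (by positivity)
  rw [h7] at h6
  unfold AA
  nlinarith

lemma Fct.R_le (F : Fct f m D A C) {δ : ℝ} (y : ℝ) (h0 : 0 < δ) (h1 : δ ≤ 1 / 4) :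
    RR f δ y ^ 2 ≤ 2 * ZZ m δ y ^ 2 + 2 * AA A D ^ 2 * lg y ^ 2 := by
  have h2 := F.rl2 y h0 h1
  have h3 : (RR f δ y - ZZ m δ y) ^ 2 ≤ (AA A D * lg y) ^ 2 := by
    rw [← sq_abs (RR f δ y - ZZ m δ y)]
    exact pow_le_pow_left₀ (abs_nonneg _) h2 2
  nlinarith [sq_nonneg (RR f δ y - 2 * ZZ m δ y)]

lemma Fct.Z_le (F : Fct f m D A C) {δ : ℝ} (y : ℝ) (h0 : 0 < δ) (h1 : δ ≤ 1 / 4) :
    ZZ m δ y ^ 2 ≤ 2 * RR f δ y ^ 2 + 2 * AA A D ^ 2 * lg y ^ 2 := by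
  have h2 := F.rl2 y h0 h1
  have h3 : (RR f δ y - ZZ m δ y) ^ 2 ≤ (AA A D * lg y) ^ 2 := by
    rw [← sq_abs (RR f δ y - ZZ m δ y)]
    exact pow_le_pow_left₀ (abs_nonneg _) h2 2
  nlinarith [sq_nonneg (ZZ m δ y - 2 * RR f δ y)]

lemma Fct.Zi (F : Fct f m D A C) {κ δ : ℝ} (k0 : 0 < κ) (k4 : κ ≤ 1 / 4) (h0 : 0 < δ)
    (h1 : δ ≤ 1 / 4) : Integrable (fun y => ZZ m δ y ^ 2 * hh κ (1 / 2 + δ) y) := by
  have i1 := (F.kpr κ δ k0 k4 h0 h1).const_mul 2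
  have i2 := (F.w2i κ (1 / 2 + δ) k0 k4 (by linarith) (by linarith)).const_mul (2 * AA A D ^ 2)
  refine (i1.add i2).mono' ?_ ?_
  · exact (((ZZ_cont F.sm h0).pow 2).mul (F.wc κ _ k0 k4 (by linarith) (by linarith))).aestronglyMeasurable
  · refine Eventually.of_forall fun y => ?_
    have h2 := hh_nonneg κ (1 / 2 + δ) y
    rw [Real.norm_of_nonneg (by positivity)]
    have h3 := mul_le_mul_of_nonneg_right (F.Z_le y h0 h1) h2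
    refine h3.trans (le_of_eq ?_)
    simp only [Pi.add_apply]
    ring

lemma Fct.Z_int_le (F : Fct f m D A C) {κ δ : ℝ} (k0 : 0 < κ) (k4 : κ ≤ 1 / 4) (h0 : 0 < δ)
    (h1 : δ ≤ 1 / 4) : ∫ y, ZZ m δ y ^ 2 * hh κ (1 / 2 + δ) y ≤
      2 * Real.pi * Jt f κ δ + (2 * Real.pi + 2 * AA A D ^ 2) * C * (κ * LL κ ^ 2) := by
  have i1 := F.kpr κ δ k0 k4 h0 h1
  have i2 := F.w2i κ (1 / 2 + δ) k0 k4 (by linarith) (by linarith)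
  have h2 : ∫ y, ZZ m δ y ^ 2 * hh κ (1 / 2 + δ) y ≤
      ∫ y, (2 * (RR f δ y ^ 2 * hh κ (1 / 2 + δ) y) + 2 * AA A D ^ 2 * (lg y ^ 2 * hh κ (1 / 2 + δ) y)) := by
    refine integral_mono (F.Zi k0 k4 h0 h1) ((i1.const_mul 2).add (i2.const_mul _)) fun y => ?_
    have h3 := mul_le_mul_of_nonneg_right (F.Z_le y h0 h1) (hh_nonneg κ (1 / 2 + δ) y)
    refine h3.trans (le_of_eq ?_)
    ring
  rw [integral_add (i1.const_mul 2) (i2.const_mul _), integral_const_mul, integral_const_mul] at h2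
  have h3 := F.w2 κ (1 / 2 + δ) k0 k4 (by linarith) (by linarith)
  have h4 := (abs_le.1 (F.kp κ δ k0 k4 h0 h1)).1
  have hpi := Real.pi_pos
  have hL := one_le_LL k0 k4
  have hL2 : κ ≤ κ * LL κ ^ 2 := le_mul_of_one_le_right k0.le (one_le_pow₀ hL)
  have hA : 0 ≤ 2 * AA A D ^ 2 := by positivity
  have h5 := mul_le_mul_of_nonneg_left h3 hA
  have h6 : ∫ y : ℝ, RR f δ y ^ 2 * hh κ (1 / 2 + δ) y ≤ Real.pi * (Jt f κ δ + C * κ) := by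
    have h7 : 1 / Real.pi * ∫ y : ℝ, RR f δ y ^ 2 * hh κ (1 / 2 + δ) y ≤ Jt f κ δ + C * κ := by linarith
    have h8 := mul_le_mul_of_nonneg_left h7 hpi.le
    rw [← mul_assoc, mul_one_div_cancel hpi.ne', one_mul] at h8
    exact h8
  have hC := F.C1
  have h9 : 2 * Real.pi * C * κ ≤ 2 * Real.pi * C * (κ * LL κ ^ 2) :=
    mul_le_mul_of_nonneg_left hL2 (by positivity)
  nlinarith

lemma Fct.J_le (F : Fct f m D A C) {κ δ : ℝ} (k0 : 0 < κ) (k4 : κ ≤ 1 / 4) (h0 : 0 < δ)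
    (h1 : δ ≤ 1 / 4) : Jt f κ δ ≤ (∫ y, ZZ m δ y ^ 2 * hh κ (1 / 2 + δ) y) +
      (1 + AA A D ^ 2) * C * (κ * LL κ ^ 2) := by
  have i1 := F.Zi k0 k4 h0 h1
  have i2 := F.w2i κ (1 / 2 + δ) k0 k4 (by linarith) (by linarith)
  have h2 : ∫ y, RR f δ y ^ 2 * hh κ (1 / 2 + δ) y ≤
      ∫ y, (2 * (ZZ m δ y ^ 2 * hh κ (1 / 2 + δ) y) + 2 * AA A D ^ 2 * (lg y ^ 2 * hh κ (1 / 2 + δ) y)) := by
    refine integral_mono (F.kpr κ δ k0 k4 h0 h1) ((i1.const_mul 2).add (i2.const_mul _)) fun y => ?_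
    have h3 := mul_le_mul_of_nonneg_right (F.R_le y h0 h1) (hh_nonneg κ (1 / 2 + δ) y)
    refine h3.trans (le_of_eq ?_)
    ring
  rw [integral_add (i1.const_mul 2) (i2.const_mul _), integral_const_mul, integral_const_mul] at h2
  have h3 := F.w2 κ (1 / 2 + δ) k0 k4 (by linarith) (by linarith)
  have h4 := (abs_le.1 (F.kp κ δ k0 k4 h0 h1)).2
  have hpi := Real.pi_gt_three
  have hL := one_le_LL k0 k4
  have hL2 : κ ≤ κ * LL κ ^ 2 := le_mul_of_one_le_right k0.le (one_le_pow₀ hL)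
  have hA : 0 ≤ 2 * AA A D ^ 2 := by positivity
  have h5 := mul_le_mul_of_nonneg_left h3 hA
  have hC := F.C1
  have hZ : 0 ≤ ∫ y, ZZ m δ y ^ 2 * hh κ (1 / 2 + δ) y :=
    integral_nonneg fun y => mul_nonneg (sq_nonneg _) (hh_nonneg _ _ _)
  have h6 : 1 / Real.pi * ∫ y : ℝ, RR f δ y ^ 2 * hh κ (1 / 2 + δ) y ≤
      (1 / 2) * (2 * (∫ y, ZZ m δ y ^ 2 * hh κ (1 / 2 + δ) y) + 2 * AA A D ^ 2 * (C * κ * LL κ ^ 2)) := by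
    have h7 : (1 : ℝ) / Real.pi ≤ 1 / 2 := by
      apply one_div_le_one_div_of_le <;> linarith
    have h8 : 0 ≤ ∫ y : ℝ, RR f δ y ^ 2 * hh κ (1 / 2 + δ) y :=
      integral_nonneg fun y => mul_nonneg (sq_nonneg _) (hh_nonneg _ _ _)
    refine mul_le_mul h7 (by linarith) h8 (by norm_num)
  have h9 : C * κ ≤ C * (κ * LL κ ^ 2) := mul_le_mul_of_nonneg_left hL2 (by linarith)
  nlinarith

lemma Jt_nonneg (f : ℝ → ℂ) (κ δ : ℝ) : 0 ≤ Jt f κ δ :=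
  integral_nonneg fun _ => mul_nonneg (sq_nonneg _) (Real.exp_pos _).le

lemma Fct.J_mono (F : Fct f m D A C) {κ δ δ' : ℝ} (k0 : 0 < κ) (k4 : κ ≤ 1 / 4) (h0 : 0 < δ)
    (h : δ ≤ δ') (h1 : δ' ≤ 1 / 4) : Jt f κ δ' ≤ Jt f κ δ := by
  unfold Jt
  refine setIntegral_mono_on (F.kpi κ δ' k0 k4 (by linarith) h1) (F.kpi κ δ k0 k4 h0 (by linarith))
    measurableSet_Ioi fun t ht => ?_
  apply mul_le_mul_of_nonneg_left _ (sq_nonneg _)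
  apply Real.exp_le_exp.2
  have : 0 < t := ht
  nlinarith

end Pool.Agent.Q102.CP
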