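import Pool.Agent.Q102.CP.Fct
import Pool.Agent.Q253.HV.ZW

set_option autoImplicit false

/-! # Project CP: the upper bound -/

namespace Pool.Agent.Q102.CP

open MeasureTheory Filter Topology Set Complex
open Pool.Agent.Q253.HV Pool.Agent.Q253.LQ Pool.Agent.Q253.CP

lemma int_tsum {G : ℕ → ℝ → ℝ} (h0 : ∀ k y, 0 ≤ G k y) (hi : ∀ k, Integrable (G k))
    (hp : ∀ y, Summable (fun k => G k y)) (hs : Summable fun k => ∫ y, G k y) :
    Integrable (fun y => ∑' k, G k y) ∧ ∫ y, ∑' k, G k y = ∑' k, ∫ y, G k y := by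
  constructor
  · refine ⟨?_, ?_⟩
    · refine aestronglyMeasurable_of_tendsto_ae atTop (f := fun n y => ∑ k ∈ Finset.range n, G k y)
        (fun n => ?_) (Eventually.of_forall fun y => (hp y).hasSum.tendsto_sum_nat)
      exact Finset.aestronglyMeasurable_fun_sum _ fun k _ => (hi k).1
    · rw [hasFiniteIntegral_iff_ofReal (Eventually.of_forall fun y => tsum_nonneg fun k => h0 k y)]
      have e1 : ∀ y, ENNReal.ofReal (∑' k, G k y) = ∑' k, ENNReal.ofReal (G k y) := fun y =>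
        ENNReal.ofReal_tsum_of_nonneg (fun k => h0 k y) (hp y)
      simp_rw [e1]
      rw [lintegral_tsum fun k => (hi k).1.aemeasurable.ennreal_ofReal]
      have e2 : ∀ k, ∫⁻ y, ENNReal.ofReal (G k y) = ENNReal.ofReal (∫ y, G k y) := fun k =>
        (ofReal_integral_eq_lintegral_ofReal (hi k) (Eventually.of_forall fun y => h0 k y)).symm
      simp_rw [e2]
      rw [← ENNReal.ofReal_tsum_of_nonneg (fun k => integral_nonneg fun y => h0 k y) hs]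
      exact ENNReal.ofReal_lt_top
  · rw [integral_tsum_of_summable_integral_norm hi]
    refine hs.congr fun k => ?_
    refine integral_congr_ae (Eventually.of_forall fun y => ?_)
    exact (Real.norm_of_nonneg (h0 k y)).symm

variable {f : ℝ → ℂ} {m : ℝ → ℕ} {D A C : ℝ}

lemma exp_six : 64 * Real.pi * Real.exp (-6) ≤ 1 := by
  have h1 := Real.exp_one_gt_d9
  have h2 : Real.exp 6 = Real.exp 1 ^ 6 := by
    rw [← Real.exp_nat_mul]
    norm_num
  have h3 : (2.7 : ℝ) ^ 6 ≤ Real.exp 1 ^ 6 := pow_le_pow_left₀ (by norm_num) (by linarith) 6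
  have h4 := Real.pi_lt_d2
  rw [Real.exp_neg, ← div_eq_mul_inv, div_le_one (Real.exp_pos 6), h2]
  norm_num at h3
  linarith

/-- nearer to the line -/
lemma Fct.half (F : Fct f m D A C) {κ δ : ℝ} (k0 : 0 < κ) (k4 : κ ≤ 1 / 4) (h0 : 0 < δ)
    (h1 : δ ≤ 1 / 4) : Jt f κ (δ / 2) ≤ 32 * Real.pi * Jt f κ δ +
      140 * AA A D ^ 2 * C * (κ * LL κ ^ 2) := by
  have g1 := F.J_le k0 k4 (δ := δ / 2) (by linarith) (by linarith)
  have g2 := F.Z_int_le k0 k4 h0 h1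
  have g3 : ∫ y, ZZ m (δ / 2) y ^ 2 * hh κ (1 / 2 + δ / 2) y ≤
      16 * ∫ y, ZZ m δ y ^ 2 * hh κ (1 / 2 + δ) y := by
    rw [← integral_const_mul]
    refine integral_mono (F.Zi k0 k4 (by linarith) (by linarith)) ((F.Zi k0 k4 h0 h1).const_mul 16)
      fun y => ?_
    have h2 := ZZ_harn F.sm (δ' := δ / 2) (δ := δ) (by linarith) (by linarith) y
    have h3 : δ / (δ / 2) = 2 := by field_simp
    rw [h3] at h2
    have h4 := ZZ_nonneg (m := m) (δ := δ / 2) (by linarith) y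
    have h5 : ZZ m (δ / 2) y ^ 2 ≤ 4 * ZZ m δ y ^ 2 := by nlinarith
    have h6 := F.w4 κ (1 / 2 + δ) (1 / 2 + δ / 2) y k0 k4 (by linarith) (by linarith) (by linarith)
    have h7 := hh_nonneg κ (1 / 2 + δ / 2) y
    have h8 := hh_nonneg κ (1 / 2 + δ) y
    calc ZZ m (δ / 2) y ^ 2 * hh κ (1 / 2 + δ / 2) y ≤ (4 * ZZ m δ y ^ 2) * (4 * hh κ (1 / 2 + δ) y) :=
          mul_le_mul h5 h6 h7 (by positivity)
      _ = 16 * (ZZ m δ y ^ 2 * hh κ (1 / 2 + δ) y) := by ring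
  have hA := F.AA1
  have hC := F.C1
  have hL := one_le_LL k0 k4
  have hX : 0 ≤ C * (κ * LL κ ^ 2) := by positivity
  have hA2 : 1 ≤ AA A D ^ 2 := one_le_pow₀ hA
  have hpi := Real.pi_lt_d2
  have h9 : (32 * Real.pi + 32 * AA A D ^ 2 + (1 + AA A D ^ 2)) * (C * (κ * LL κ ^ 2)) ≤
      140 * AA A D ^ 2 * (C * (κ * LL κ ^ 2)) := by
    apply mul_le_mul_of_nonneg_right _ hX
    nlinarith
  calc Jt f κ (δ / 2) ≤ 16 * (2 * Real.pi * Jt f κ δ + (2 * Real.pi + 2 * AA A D ^ 2) * C *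
        (κ * LL κ ^ 2)) + (1 + AA A D ^ 2) * C * (κ * LL κ ^ 2) := by linarith
    _ = 32 * Real.pi * Jt f κ δ + (32 * Real.pi + 32 * AA A D ^ 2 + (1 + AA A D ^ 2)) *
        (C * (κ * LL κ ^ 2)) := by ring
    _ ≤ 32 * Real.pi * Jt f κ δ + 140 * AA A D ^ 2 * (C * (κ * LL κ ^ 2)) := by linarith
    _ = _ := by ring

/-- the two ranges -/
lemma Fct.split (F : Fct f m D A C) {κ δ : ℝ} (k0 : 0 < κ) (k4 : κ ≤ 1 / 4) (h0 : 0 < δ)
    (h1 : δ ≤ 1 / 4) : Jt f κ δ ≤ C * (κ * LL κ ^ 2) + Real.exp (-(δ * LL κ)) * Jt f κ (δ / 2) := by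
  have hL := one_le_LL k0 k4
  have hL0 : 0 ≤ LL κ := by linarith
  set F1 : ℝ → ℝ := fun t => ‖f (t + κ) - f t‖ ^ 2 with hF1
  have hF0 : ∀ t, 0 ≤ F1 t := fun t => sq_nonneg _
  have i1 := F.kpi κ δ k0 k4 h0 h1
  have i2 := F.kpi κ (δ / 2) k0 k4 (by linarith) (by linarith)
  have hunion : Ioi (0 : ℝ) = Ioc 0 (LL κ) ∪ Ioi (LL κ) := (Ioc_union_Ioi_eq_Ioi hL0).symm
  have e1 : Jt f κ δ = (∫ t in Ioc (0 : ℝ) (LL κ), F1 t * Real.exp (-((1 + 2 * δ) * t))) +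
      ∫ t in Ioi (LL κ), F1 t * Real.exp (-((1 + 2 * δ) * t)) := by
    unfold Jt
    rw [hunion, setIntegral_union (Ioc_disjoint_Ioi le_rfl) measurableSet_Ioi
      (i1.mono_set Ioc_subset_Ioi_self) (i1.mono_set (Ioi_subset_Ioi hL0))]
  have b1 : ∫ t in Ioc (0 : ℝ) (LL κ), F1 t * Real.exp (-((1 + 2 * δ) * t)) ≤
      C * (κ * LL κ ^ 2) := by
    have h2 := F.nr κ k0 k4
    rw [intervalIntegral.integral_of_le hL0] at h2
    have h3 : C * κ * LL κ ^ 2 = C * (κ * LL κ ^ 2) := by ring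
    rw [h3] at h2
    refine le_trans ?_ h2
    have i3 : IntegrableOn (fun t => F1 t * Real.exp (-t)) (Ioc 0 (LL κ)) := by
      have h4 := IntegrableOn.mul_continuousOn_of_subset (K := Icc 0 (LL κ))
        (g' := fun t => Real.exp (2 * δ * t)) (i1.mono_set Ioc_subset_Ioi_self)
        (by fun_prop) measurableSet_Ioc isCompact_Icc Ioc_subset_Icc_self
      refine h4.congr_fun (fun t _ => ?_) measurableSet_Ioc
      simp only
      rw [mul_assoc, ← Real.exp_add]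
      congr 2
      ring
    refine setIntegral_mono_on (i1.mono_set Ioc_subset_Ioi_self) i3 measurableSet_Ioc fun t ht => ?_
    apply mul_le_mul_of_nonneg_left _ (hF0 t)
    apply Real.exp_le_exp.2
    have := ht.1
    nlinarith
  have b2 : ∫ t in Ioi (LL κ), F1 t * Real.exp (-((1 + 2 * δ) * t)) ≤
      Real.exp (-(δ * LL κ)) * Jt f κ (δ / 2) := by
    have h2 : ∫ t in Ioi (LL κ), F1 t * Real.exp (-((1 + 2 * δ) * t)) ≤
        ∫ t in Ioi (LL κ), Real.exp (-(δ * LL κ)) * (F1 t * Real.exp (-((1 + 2 * (δ / 2)) * t))) := by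
      refine setIntegral_mono_on (i1.mono_set (Ioi_subset_Ioi hL0))
        ((i2.mono_set (Ioi_subset_Ioi hL0)).const_mul _) measurableSet_Ioi fun t ht => ?_
      have e2 : Real.exp (-(δ * LL κ)) * (F1 t * Real.exp (-((1 + 2 * (δ / 2)) * t))) =
          F1 t * Real.exp (-(δ * LL κ) + -((1 + 2 * (δ / 2)) * t)) := by
        rw [Real.exp_add]
        ring
      rw [e2]
      apply mul_le_mul_of_nonneg_left _ (hF0 t)
      apply Real.exp_le_exp.2
      have h3 : LL κ < t := ht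
      nlinarith
    refine h2.trans ?_
    rw [integral_const_mul]
    apply mul_le_mul_of_nonneg_left _ (Real.exp_pos _).le
    unfold Jt
    refine setIntegral_mono_set i2 ?_ (Ioi_subset_Ioi hL0).eventuallyLE
    exact Eventually.of_forall fun t => mul_nonneg (hF0 t) (Real.exp_pos _).le
  rw [e1]
  exact add_le_add b1 b2

/-- the constant -/
noncomputable def C3 (A D C : ℝ) : ℝ := 282 * AA A D ^ 2 * C

lemma Fct.C3_pos (F : Fct f m D A C) : 1 ≤ C3 A D C := by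
  have hA := F.AA1
  have hC := F.C1
  have hA2 : 1 ≤ AA A D ^ 2 := one_le_pow₀ hA
  unfold C3
  nlinarith [mul_le_mul hA2 hC (by norm_num) (by positivity)]

/-- (i) -/
lemma Fct.first (F : Fct f m D A C) {κ δ : ℝ} (k0 : 0 < κ) (k4 : κ ≤ 1 / 4) (h0 : 0 < δ)
    (h1 : δ ≤ 1 / 4) (h : 6 ≤ δ * LL κ) : Jt f κ δ ≤ C3 A D C * (κ * LL κ ^ 2) := by
  have g1 := F.split k0 k4 h0 h1
  have g2 := F.half k0 k4 h0 h1
  have g3 : Real.exp (-(δ * LL κ)) ≤ Real.exp (-6) := Real.exp_le_exp.2 (by linarith)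
  have hJ := Jt_nonneg f κ (δ / 2)
  have hJ1 := Jt_nonneg f κ δ
  have g4 : Real.exp (-(δ * LL κ)) * Jt f κ (δ / 2) ≤ Real.exp (-6) * (32 * Real.pi * Jt f κ δ +
      140 * AA A D ^ 2 * C * (κ * LL κ ^ 2)) :=
    mul_le_mul g3 g2 hJ (Real.exp_pos _).le
  have g5 := exp_six
  have hA := F.AA1
  have hC := F.C1
  have hL := one_le_LL k0 k4
  have hX : 0 ≤ C * (κ * LL κ ^ 2) := by positivity
  have hA2 : 1 ≤ AA A D ^ 2 := one_le_pow₀ hA
  have g6 : Real.exp (-6) * (32 * Real.pi * Jt f κ δ) ≤ 1 / 2 * Jt f κ δ := by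
    have : Real.exp (-6) * (32 * Real.pi * Jt f κ δ) = (32 * Real.pi * Real.exp (-6)) * Jt f κ δ := by
      ring
    rw [this]
    apply mul_le_mul_of_nonneg_right _ hJ1
    linarith
  have g7 : Real.exp (-6) ≤ 1 := Real.exp_le_one_iff.2 (by norm_num)
  have g8 : Real.exp (-6) * (140 * AA A D ^ 2 * C * (κ * LL κ ^ 2)) ≤
      140 * AA A D ^ 2 * (C * (κ * LL κ ^ 2)) := by
    have h2 : 0 ≤ 140 * AA A D ^ 2 * (C * (κ * LL κ ^ 2)) := by positivity
    calc Real.exp (-6) * (140 * AA A D ^ 2 * C * (κ * LL κ ^ 2)) =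
          Real.exp (-6) * (140 * AA A D ^ 2 * (C * (κ * LL κ ^ 2))) := by ring
      _ ≤ 1 * (140 * AA A D ^ 2 * (C * (κ * LL κ ^ 2))) := mul_le_mul_of_nonneg_right g7 h2
      _ = _ := one_mul _
  have g9 : C * (κ * LL κ ^ 2) ≤ AA A D ^ 2 * (C * (κ * LL κ ^ 2)) := le_mul_of_one_le_left hX hA2
  unfold C3
  rw [mul_add] at g4
  linarith

lemma sinc_half {x : ℝ} (h : |x| ≤ 1 / 2) : 1 / 4 ≤ Real.sinc x ^ 2 := by
  have key : ∀ x : ℝ, 0 ≤ x → x ≤ 1 / 2 → 1 / 2 ≤ Real.sinc x := by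
    intro x h0 h1
    rcases h0.eq_or_lt with h2 | h2
    · rw [← h2, Real.sinc_zero]
      norm_num
    · rw [Real.sinc_of_ne_zero h2.ne', le_div_iff₀ h2]
      have hpi := Real.pi_gt_three
      have hpi2 := Real.pi_le_four
      have h3 := Real.mul_le_sin h2.le (by linarith)
      refine le_trans ?_ h3
      apply mul_le_mul_of_nonneg_right _ h2.le
      rw [div_le_div_iff₀ (by norm_num) (by linarith)]
      linarith
  have h2 : 1 / 2 ≤ Real.sinc x := by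
    rcases le_total 0 x with h0 | h0
    · exact key x h0 ((le_abs_self x).trans h)
    · have := key (-x) (by linarith) ((neg_le_abs x).trans h)
      rwa [Real.sinc_neg] at this
  nlinarith

/-- the parameters `κ / 2 ^ k` -/
noncomputable def kk (κ : ℝ) (k : ℕ) : ℝ := κ / 2 ^ k

lemma kk_pos {κ : ℝ} (h : 0 < κ) (k : ℕ) : 0 < kk κ k := by unfold kk; positivity

lemma kk_le {κ : ℝ} (h : 0 < κ) (k : ℕ) : kk κ k ≤ κ := by
  unfold kk
  apply div_le_self h.le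
  exact one_le_pow₀ (by norm_num)

lemma LL_kk {κ : ℝ} (h : 0 < κ) (k : ℕ) : LL (kk κ k) = LL κ + k * Real.log 2 := by
  unfold LL kk
  rw [one_div_div, Real.log_div (by positivity) h.ne', Real.log_pow, one_div, Real.log_inv]
  ring

lemma LL_kk_ge {κ : ℝ} (h : 0 < κ) (k : ℕ) : LL κ ≤ LL (kk κ k) := by
  rw [LL_kk h]
  have h2 : 0 < Real.log 2 := Real.log_pos (by norm_num)
  have : 0 ≤ (k : ℝ) * Real.log 2 := by positivity
  linarith

lemma LL_kk_le {κ : ℝ} (h : 0 < κ) (h4 : κ ≤ 1 / 4) (k : ℕ) : LL (kk κ k) ≤ LL κ * (1 + k) := by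
  rw [LL_kk h]
  have h1 := one_le_LL h h4
  have h2 := Real.log_two_lt_d9
  have h3 : (k : ℝ) * Real.log 2 ≤ k * LL κ :=
    mul_le_mul_of_nonneg_left (by linarith) (Nat.cast_nonneg k)
  linarith

lemma kk_sum {κ : ℝ} (h : 0 < κ) (h4 : κ ≤ 1 / 4) (k : ℕ) :
    kk κ k * LL (kk κ k) ^ 2 ≤ κ * LL κ ^ 2 * ((1 + k) ^ 2 * (1 / 2) ^ k) := by
  have h1 := LL_kk_le h h4 k
  have h2 := LL_kk_ge h k
  have h3 := one_le_LL h h4
  have h5 : LL (kk κ k) ^ 2 ≤ (LL κ * (1 + k)) ^ 2 := pow_le_pow_left₀ (by linarith) h1 2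
  have h6 := mul_le_mul_of_nonneg_left h5 (kk_pos h k).le
  refine h6.trans (le_of_eq ?_)
  unfold kk
  rw [one_div, inv_pow]
  ring

lemma summ_geo : Summable (fun k : ℕ => ((1 : ℝ) + k) ^ 2 * (1 / 2) ^ k) := by
  have h1 : Summable (fun k : ℕ => ((k : ℝ) ^ 2 * (1 / 2) ^ k)) :=
    summable_pow_mul_geometric_of_norm_lt_one 2 (by norm_num)
  have h2 : Summable (fun k : ℕ => ((k : ℝ) ^ 1 * (1 / 2) ^ k)) :=
    summable_pow_mul_geometric_of_norm_lt_one 1 (by norm_num)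
  have h3 : Summable (fun k : ℕ => ((1 / 2 : ℝ)) ^ k) :=
    summable_geometric_of_lt_one (by norm_num) (by norm_num)
  refine ((h1.add (h2.mul_left 2)).add h3).congr fun k => ?_
  ring

/-- the dyadic decomposition of the weight -/
lemma Fct.dyad (F : Fct f m D A C) {κ σ : ℝ} (k0 : 0 < κ) (k4 : κ ≤ 1 / 4) (h0 : 1 / 2 ≤ σ)
    (h1 : σ ≤ 1) (y : ℝ) : ∃ k : ℕ, 1 / ((1 / κ) ^ 2 + y ^ 2) ≤ 16 * hh (kk κ k) σ y := by
  have main : ∀ k : ℕ, |kk κ k * y| ≤ 1 → 1 / 4 * kk κ k ^ 2 ≤ hh (kk κ k) σ y := by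
    intro k hk
    have h2 := F.wlo (kk κ k) σ y (kk_pos k0 k) ((kk_le k0 k).trans k4) h0 h1
    have h3 : |kk κ k * y / 2| ≤ 1 / 2 := by
      rw [abs_div, abs_of_pos (by norm_num : (0 : ℝ) < 2)]
      linarith
    have h4 := sinc_half h3
    have h5 := mul_le_mul_of_nonneg_left h4 (sq_nonneg (kk κ k))
    linarith
  have hM : 0 < (1 / κ) ^ 2 + y ^ 2 := by positivity
  rcases le_or_gt (κ * |y|) 1 with h | h
  · refine ⟨0, ?_⟩
    have e0 : kk κ 0 = κ := by unfold kk; simp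
    have h2 := main 0 (by rw [e0, abs_mul, abs_of_pos k0]; exact h)
    rw [e0] at h2 ⊢
    have h3 : 1 / ((1 / κ) ^ 2 + y ^ 2) ≤ κ ^ 2 := by
      rw [div_le_iff₀ hM]
      have : κ ^ 2 * ((1 / κ) ^ 2 + y ^ 2) = 1 + κ ^ 2 * y ^ 2 := by field_simp
      rw [this]
      nlinarith [sq_nonneg (κ * y)]
    have h4 := hh_nonneg κ σ y
    nlinarith
  · obtain ⟨n, hn1, hn2⟩ := exists_nat_pow_near h.le (by norm_num : (1 : ℝ) < 2)
    refine ⟨n + 1, ?_⟩
    have hp : (0 : ℝ) < 2 ^ (n + 1) := by positivity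
    have h5 : |kk κ (n + 1) * y| = κ * |y| / 2 ^ (n + 1) := by
      rw [abs_mul, abs_of_pos (kk_pos k0 _)]
      unfold kk
      ring
    have h2 := main (n + 1) (by rw [h5, div_le_one hp]; exact hn2.le)
    have h6 : 1 / 2 ≤ |kk κ (n + 1) * y| := by
      rw [h5, le_div_iff₀ hp, pow_succ]
      linarith
    have h7 : 1 / 4 ≤ kk κ (n + 1) ^ 2 * y ^ 2 := by
      rw [← mul_pow, ← sq_abs]
      nlinarith
    have hy : 0 < y ^ 2 := by
      by_contra hc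
      have : y ^ 2 = 0 := le_antisymm (not_lt.1 hc) (sq_nonneg y)
      rw [this] at h7
      norm_num at h7
    have h8 : 1 / ((1 / κ) ^ 2 + y ^ 2) ≤ 4 * kk κ (n + 1) ^ 2 := by
      rw [div_le_iff₀ hM]
      have : 0 ≤ 4 * kk κ (n + 1) ^ 2 * (1 / κ) ^ 2 := by positivity
      nlinarith
    linarith

/-- the mean square with the full weight -/
lemma Fct.full (F : Fct f m D A C) : ∃ C4 : ℝ, 0 ≤ C4 ∧ ∀ κ δ : ℝ, 0 < κ → κ ≤ 1 / 4 → 0 < δ →
    δ ≤ 1 / 4 → 6 ≤ δ * LL κ →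
    Integrable (fun y => ZZ m δ y ^ 2 / ((1 / κ) ^ 2 + y ^ 2)) ∧
    ∫ y, ZZ m δ y ^ 2 / ((1 / κ) ^ 2 + y ^ 2) ≤ C4 * (κ * LL κ ^ 2) := by
  set S0 : ℝ := ∑' k : ℕ, ((1 : ℝ) + k) ^ 2 * (1 / 2) ^ k with hS0
  have hS00 : 0 ≤ S0 := tsum_nonneg fun k => by positivity
  set E : ℝ := 2 * Real.pi * C3 A D C + (2 * Real.pi + 2 * AA A D ^ 2) * C with hE
  have hC := F.C1
  have hC3 := F.C3_pos
  have hpi := Real.pi_pos
  have hE0 : 0 ≤ E := by positivity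
  refine ⟨16 * (E * S0), by positivity, ?_⟩
  intro κ δ k0 k4 h0 h1 h6
  have hσ0 : (1 : ℝ) / 2 ≤ 1 / 2 + δ := by linarith
  have hσ1 : 1 / 2 + δ ≤ 1 := by linarith
  set G : ℕ → ℝ → ℝ := fun k y => ZZ m δ y ^ 2 * hh (kk κ k) (1 / 2 + δ) y with hG
  have hk0 := fun k => kk_pos k0 k
  have hk4 := fun k => (kk_le k0 k).trans k4
  have gi : ∀ k, Integrable (G k) := fun k => F.Zi (hk0 k) (hk4 k) h0 h1
  have gb : ∀ k, ∫ y, G k y ≤ E * (κ * LL κ ^ 2 * ((1 + k) ^ 2 * (1 / 2) ^ k)) := by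
    intro k
    have h2 := F.Z_int_le (hk0 k) (hk4 k) h0 h1
    have h3 := F.first (hk0 k) (hk4 k) h0 h1
      (h6.trans (mul_le_mul_of_nonneg_left (LL_kk_ge k0 k) h0.le))
    have h4 := kk_sum k0 k4 k
    have h5 : ∫ y, G k y ≤ E * (kk κ k * LL (kk κ k) ^ 2) := by
      have h7 := mul_le_mul_of_nonneg_left h3 (show 0 ≤ 2 * Real.pi by positivity)
      calc ∫ y, G k y ≤ 2 * Real.pi * Jt f (kk κ k) δ + (2 * Real.pi + 2 * AA A D ^ 2) * C *
            (kk κ k * LL (kk κ k) ^ 2) := h2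
        _ ≤ 2 * Real.pi * (C3 A D C * (kk κ k * LL (kk κ k) ^ 2)) +
            (2 * Real.pi + 2 * AA A D ^ 2) * C * (kk κ k * LL (kk κ k) ^ 2) := by linarith
        _ = _ := by rw [hE]; ring
    exact h5.trans (mul_le_mul_of_nonneg_left h4 hE0)
  have g0 : ∀ k y, 0 ≤ G k y := fun k y => mul_nonneg (sq_nonneg _) (hh_nonneg _ _ _)
  have hsb : Summable (fun k : ℕ => E * (κ * LL κ ^ 2 * ((1 + (k : ℝ)) ^ 2 * (1 / 2) ^ k))) :=
    (summ_geo.mul_left _).mul_left _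
  have gs : Summable (fun k => ∫ y, G k y) :=
    Summable.of_nonneg_of_le (fun k => integral_nonneg (g0 k)) gb hsb
  have gp : ∀ y, Summable (fun k => G k y) := by
    intro y
    have h2 : Summable (fun k : ℕ => ZZ m δ y ^ 2 * (C * κ ^ 2 * (1 / 4) ^ k)) :=
      ((summable_geometric_of_lt_one (by norm_num) (by norm_num)).mul_left _).mul_left _
    refine Summable.of_nonneg_of_le (fun k => g0 k y) (fun k => ?_) h2
    apply mul_le_mul_of_nonneg_left _ (sq_nonneg _)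
    refine (F.wup _ _ y (hk0 k) (hk4 k) hσ0 hσ1).trans ?_
    have hk := hk0 k
    rw [div_le_iff₀ (by positivity)]
    have e : C * κ ^ 2 * (1 / 4) ^ k = C * kk κ k ^ 2 := by
      have e1 : (1 / 4 : ℝ) ^ k = ((1 / 2) ^ k) ^ 2 := by
        rw [← pow_mul, mul_comm k 2, pow_mul]
        norm_num
      have e3 : kk κ k = κ * (1 / 2) ^ k := by
        unfold kk
        rw [one_div, inv_pow]
        ring
      rw [e1, e3]
      ring
    rw [e]
    have e2 : C * kk κ k ^ 2 * ((1 / kk κ k) ^ 2 + y ^ 2) = C + C * kk κ k ^ 2 * y ^ 2 := by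
      field_simp
    rw [e2]
    have : 0 ≤ C * kk κ k ^ 2 * y ^ 2 := by positivity
    linarith
  obtain ⟨ti, te⟩ := int_tsum g0 gi gp gs
  have hle : ∀ y, ZZ m δ y ^ 2 / ((1 / κ) ^ 2 + y ^ 2) ≤ 16 * ∑' k, G k y := by
    intro y
    obtain ⟨k, hk⟩ := F.dyad k0 k4 hσ0 hσ1 y
    have h2 : G k y ≤ ∑' k, G k y := (gp y).le_tsum k fun j _ => g0 j y
    have h3 := mul_le_mul_of_nonneg_left hk (sq_nonneg (ZZ m δ y))
    calc ZZ m δ y ^ 2 / ((1 / κ) ^ 2 + y ^ 2) = ZZ m δ y ^ 2 * (1 / ((1 / κ) ^ 2 + y ^ 2)) := by ring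
      _ ≤ ZZ m δ y ^ 2 * (16 * hh (kk κ k) (1 / 2 + δ) y) := h3
      _ = 16 * G k y := by rw [hG]; ring
      _ ≤ _ := by linarith
  have ci : Continuous (fun y => ZZ m δ y ^ 2 / ((1 / κ) ^ 2 + y ^ 2)) := by
    refine ((ZZ_cont F.sm h0).pow 2).div (by fun_prop) fun y => ?_
    positivity
  have i1 : Integrable (fun y => ZZ m δ y ^ 2 / ((1 / κ) ^ 2 + y ^ 2)) := by
    refine (ti.const_mul 16).mono' ci.aestronglyMeasurable (Eventually.of_forall fun y => ?_)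
    rw [Real.norm_of_nonneg (by positivity)]
    exact hle y
  refine ⟨i1, ?_⟩
  have h7 := integral_mono i1 (ti.const_mul 16) hle
  rw [integral_const_mul, te] at h7
  refine h7.trans ?_
  have h8 : ∑' k, ∫ y, G k y ≤ E * (κ * LL κ ^ 2 * S0) := by
    rw [hS0, ← tsum_mul_left, ← tsum_mul_left]
    exact gs.tsum_le_tsum gb hsb
  calc 16 * ∑' k, ∫ y, G k y ≤ 16 * (E * (κ * LL κ ^ 2 * S0)) := by linarith
    _ = _ := by ring

/-- the mean square with the full weight, near the line -/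
lemma Fct.full2 (F : Fct f m D A C) : ∃ C5 : ℝ, 0 ≤ C5 ∧ ∀ κ δ : ℝ, 0 < κ → κ ≤ Real.exp (-24) →
    0 < δ → δ * LL κ ≤ 6 →
    Integrable (fun y => ZZ m δ y ^ 2 / ((1 / κ) ^ 2 + y ^ 2)) ∧
    ∫ y, ZZ m δ y ^ 2 / ((1 / κ) ^ 2 + y ^ 2) ≤ C5 * (κ * LL κ / δ) := by
  obtain ⟨C4, hC4, h4⟩ := F.full
  refine ⟨2592 * C4, by positivity, ?_⟩
  intro κ δ k0 kb h0 h6
  have hL : 24 ≤ LL κ := by
    unfold LL
    rw [one_div, Real.log_inv]
    have := Real.log_le_log k0 kb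
    rw [Real.log_exp] at this
    linarith
  have k4 : κ ≤ 1 / 4 := by
    refine kb.trans ?_
    rw [Real.exp_neg, inv_eq_one_div]
    apply one_div_le_one_div_of_le (by norm_num)
    have := Real.add_one_le_exp (24 : ℝ)
    linarith
  have hLp : 0 < LL κ := by linarith
  set δ1 : ℝ := 6 / LL κ with hδ1
  have hδ1p : 0 < δ1 := by positivity
  have hδ14 : δ1 ≤ 1 / 4 := by
    rw [hδ1, div_le_div_iff₀ hLp (by norm_num)]
    linarith
  have hδ1L : δ1 * LL κ = 6 := by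
    rw [hδ1]
    field_simp
  have hδδ : δ ≤ δ1 := by
    rw [hδ1, le_div_iff₀ hLp]
    exact h6
  obtain ⟨i1, b1⟩ := h4 κ δ1 k0 k4 hδ1p hδ14 hδ1L.ge
  have hk2 : (1 : ℝ) / 2 ≤ 1 / κ := by
    rw [le_div_iff₀ k0]
    linarith
  have ci : Continuous (fun y => ZZ m δ y ^ 2 / ((1 / κ) ^ 2 + y ^ 2)) := by
    refine ((ZZ_cont F.sm h0).pow 2).div (by fun_prop) fun y => ?_
    positivity
  have i2 : Integrable (fun y => ZZ m δ y ^ 2 / ((1 / κ) ^ 2 + y ^ 2)) := by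
    refine (i1.const_mul ((δ1 / δ) ^ 2)).mono' ci.aestronglyMeasurable (Eventually.of_forall fun y => ?_)
    rw [Real.norm_of_nonneg (by positivity)]
    have h2 := ZZ_harn F.sm h0 hδδ y
    have h3 : ZZ m δ y ^ 2 ≤ (δ1 / δ * ZZ m δ1 y) ^ 2 := pow_le_pow_left₀ (ZZ_nonneg h0 y) h2 2
    rw [mul_pow] at h3
    calc ZZ m δ y ^ 2 / ((1 / κ) ^ 2 + y ^ 2) ≤ ((δ1 / δ) ^ 2 * ZZ m δ1 y ^ 2) / ((1 / κ) ^ 2 + y ^ 2) :=
          div_le_div_of_nonneg_right h3 (by positivity)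
      _ = _ := by ring
  refine ⟨i2, ?_⟩
  have h7 := t_ZW (ZZ m) (zfun2 F.sm) (1 / κ) δ δ1 hk2 h0 hδδ (by linarith) i2 i1
  refine h7.trans ?_
  have h8 := mul_le_mul_of_nonneg_left b1 (show 0 ≤ 432 * (δ1 / δ) by positivity)
  refine h8.trans (le_of_eq ?_)
  rw [hδ1]
  field_simp
  ring

theorem t_TB (h1 : S_KPL) (h2 : S_WT) : Pool.Agent.Q253.CP.S_TB := by
  intro f m D S
  obtain ⟨A, C, F⟩ := fct h1 h2 S
  obtain ⟨C5, hC5, h5⟩ := F.full2
  have hC := F.C1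
  have hC3 := F.C3_pos
  have hk4 : Real.exp (-24) ≤ 1 / 4 := by
    rw [Real.exp_neg, inv_eq_one_div]
    apply one_div_le_one_div_of_le (by norm_num)
    have := Real.add_one_le_exp (24 : ℝ)
    linarith
  refine ⟨C3 A D C + C * C5 + (1 + AA A D ^ 2) * C, Real.exp (-24), by positivity, Real.exp_pos _,
    hk4, ?_⟩
  intro κ δ k0 kb h0 h1
  have k4 : κ ≤ 1 / 4 := kb.trans hk4
  have hL := one_le_LL k0 k4
  have hLp : 0 < LL κ := by linarith
  have hX0 : 0 ≤ κ * LL κ ^ 2 := by positivity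
  have hX1 : 0 ≤ κ * LL κ / δ := by positivity
  have e : (C3 A D C + C * C5 + (1 + AA A D ^ 2) * C) * κ * LL κ * (LL κ + 1 / δ) =
      (C3 A D C + C * C5 + (1 + AA A D ^ 2) * C) * (κ * LL κ ^ 2 + κ * LL κ / δ) := by ring
  rw [e]
  have c1 : 0 ≤ C * C5 := by positivity
  have c2 : 0 ≤ (1 + AA A D ^ 2) * C := by positivity
  have c3 : 0 ≤ C3 A D C := by linarith
  rcases le_total 6 (δ * LL κ) with h | h
  · have h2 := F.first k0 k4 h0 h1 h
    nlinarith [mul_nonneg c1 hX0, mul_nonneg c2 hX0, mul_nonneg c1 hX1, mul_nonneg c2 hX1,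
      mul_nonneg c3 hX1]
  · have h2 := F.J_le k0 k4 h0 h1
    obtain ⟨i2, b2⟩ := h5 κ δ k0 kb h0 h
    have h3 : ∫ y, ZZ m δ y ^ 2 * hh κ (1 / 2 + δ) y ≤
        C * ∫ y, ZZ m δ y ^ 2 / ((1 / κ) ^ 2 + y ^ 2) := by
      rw [← integral_const_mul]
      refine integral_mono (F.Zi k0 k4 h0 h1) (i2.const_mul C) fun y => ?_
      have h4 := F.wup κ (1 / 2 + δ) y k0 k4 (by linarith) (by linarith)
      have h6 := mul_le_mul_of_nonneg_left h4 (sq_nonneg (ZZ m δ y))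
      refine h6.trans (le_of_eq ?_)
      ring
    have h4 := mul_le_mul_of_nonneg_left b2 (show 0 ≤ C by linarith)
    nlinarith [mul_nonneg c1 hX0, mul_nonneg c2 hX0, mul_nonneg c3 hX0, mul_nonneg c2 hX1,
      mul_nonneg c3 hX1]

end Pool.Agent.Q102.CP
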