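import Pool.Agent.Q253.CP.Stm

set_option autoImplicit false

/-! # Project CP: elementary properties of the sum over the zeros

The lemmas on the kernel are those of `Pool/Agent/Q68/HV/ZG.lean` and `Pool/Agent/Q253/HV/ZG2.lean`. -/

namespace Pool.Agent.Q102.CP

open MeasureTheory Filter Topology Set Complex
open Pool.Agent.Q253.HV Pool.Agent.Q253.LQ Pool.Agent.Q253.CP

/-- the kernel -/
noncomputable def Pk (δ v : ℝ) : ℝ := δ / (δ ^ 2 + v ^ 2)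

lemma Pk_nonneg {δ : ℝ} (hδ : 0 < δ) (v : ℝ) : 0 ≤ Pk δ v := by unfold Pk; positivity

lemma Pk_pos {δ : ℝ} (hδ : 0 < δ) (v : ℝ) : 0 < Pk δ v := by unfold Pk; positivity

lemma Pk_harn {δ' δ : ℝ} (h' : 0 < δ') (h : δ' ≤ δ) (v : ℝ) : Pk δ' v ≤ δ / δ' * Pk δ v := by
  unfold Pk
  have h0 : 0 < δ := h'.trans_le h
  rw [div_mul_div_comm, div_le_div_iff₀ (by positivity) (by positivity)]
  have h1 : δ' ^ 2 * v ^ 2 ≤ δ ^ 2 * v ^ 2 :=
    mul_le_mul_of_nonneg_right (pow_le_pow_left₀ h'.le h 2) (sq_nonneg v)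
  nlinarith

lemma Pk_sq {δ h : ℝ} (hδ : 0 < δ) (hh : 0 < h) (v : ℝ) :
    (Pk δ v / δ - Pk ((1 + h) * δ) v / ((1 + h) * δ)) / (2 * h + h ^ 2) ≤ Pk δ v ^ 2 := by
  unfold Pk
  have h1 : 0 < δ ^ 2 + v ^ 2 := by positivity
  have h2 : 0 < ((1 + h) * δ) ^ 2 + v ^ 2 := by positivity
  have h3 : 0 < 2 * h + h ^ 2 := by positivity
  have e : (δ / (δ ^ 2 + v ^ 2) / δ - (1 + h) * δ / (((1 + h) * δ) ^ 2 + v ^ 2) / ((1 + h) * δ)) /
      (2 * h + h ^ 2) = δ ^ 2 / ((δ ^ 2 + v ^ 2) * (((1 + h) * δ) ^ 2 + v ^ 2)) := by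
    field_simp
    ring
  rw [e, div_pow, div_le_div_iff₀ (by positivity) (by positivity)]
  have h4 : δ ^ 2 + v ^ 2 ≤ ((1 + h) * δ) ^ 2 + v ^ 2 := by
    have : δ ^ 2 ≤ ((1 + h) * δ) ^ 2 := by
      apply pow_le_pow_left₀ hδ.le
      nlinarith
    linarith
  have h5 : (δ ^ 2 + v ^ 2) ^ 2 ≤ (δ ^ 2 + v ^ 2) * (((1 + h) * δ) ^ 2 + v ^ 2) := by
    rw [sq (δ ^ 2 + v ^ 2)]
    exact mul_le_mul_of_nonneg_left h4 h1.le
  exact mul_le_mul_of_nonneg_left h5 (by positivity)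

lemma Pk_cont {δ : ℝ} (hδ : 0 < δ) : Continuous (Pk δ) := by
  unfold Pk
  refine continuous_const.div (by fun_prop) fun v => ?_
  positivity

lemma Pk_int {δ : ℝ} (hδ : 0 < δ) (a b γ : ℝ) : ∫ u in a..b, Pk δ (u - γ) ≤ Real.pi := by
  have h1 : ∫ u in a..b, Pk δ (u - γ) = Real.arctan ((b - γ) / δ) - Real.arctan ((a - γ) / δ) := by
    apply intervalIntegral.integral_eq_sub_of_hasDerivAt
    · intro x _
      have h2 : HasDerivAt (fun u : ℝ => (u - γ) / δ) (1 / δ) x := by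
        exact ((hasDerivAt_id x).sub_const γ).div_const δ
      have h3 := (Real.hasDerivAt_arctan ((x - γ) / δ)).comp x h2
      refine h3.congr_deriv ?_
      unfold Pk
      field_simp
    · exact (Continuous.comp (Pk_cont hδ) (by fun_prop)).intervalIntegrable _ _
  rw [h1]
  have h2 := Real.arctan_lt_pi_div_two ((b - γ) / δ)
  have h3 := Real.neg_pi_div_two_lt_arctan ((a - γ) / δ)
  linarith

lemma Pk_avg {δ δ' : ℝ} (hδ : 0 < δ) (h : δ ≤ δ') (y γ : ℝ) :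
    ∫ u in (y - δ')..(y + δ'), Pk δ (u - γ) ≤ 16 * δ' * Pk δ' (y - γ) := by
  have hδ' : 0 < δ' := hδ.trans_le h
  rcases le_or_gt (|y - γ|) (2 * δ') with h1 | h1
  · refine (Pk_int hδ _ _ γ).trans ?_
    have h2 : (y - γ) ^ 2 ≤ 4 * δ' ^ 2 := by
      rw [← sq_abs]
      calc |y - γ| ^ 2 ≤ (2 * δ') ^ 2 := pow_le_pow_left₀ (abs_nonneg _) h1 2
        _ = _ := by ring
    have h3 : Real.pi ≤ 16 / 5 := by linarith [Real.pi_lt_d2]
    refine h3.trans ?_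
    unfold Pk
    rw [mul_div_assoc', le_div_iff₀ (by positivity)]
    nlinarith
  · have hv : 0 < |y - γ| := by linarith
    have hv2 : 0 < (y - γ) ^ 2 := by
      rw [← sq_abs]
      positivity
    have h4 : ∀ u ∈ Set.Icc (y - δ') (y + δ'), Pk δ (u - γ) ≤ 4 * δ' / (y - γ) ^ 2 := by
      intro u hu
      have h5 : |u - y| ≤ δ' := by
        rw [abs_le]
        constructor <;> linarith [hu.1, hu.2]
      have h6 : |y - γ| ≤ 2 * |u - γ| := by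
        have h7 : |y - γ| ≤ |u - y| + |u - γ| := by
          have : y - γ = -(u - y) + (u - γ) := by ring
          rw [this]
          refine (abs_add_le _ _).trans ?_
          rw [abs_neg]
        linarith
      have h8 : (y - γ) ^ 2 ≤ 4 * (u - γ) ^ 2 := by
        rw [← sq_abs, ← sq_abs (u - γ)]
        calc |y - γ| ^ 2 ≤ (2 * |u - γ|) ^ 2 := pow_le_pow_left₀ (abs_nonneg _) h6 2
          _ = _ := by ring
      unfold Pk
      rw [div_le_div_iff₀ (by positivity) hv2]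
      have h9 : 0 ≤ δ' * δ ^ 2 := by positivity
      calc δ * (y - γ) ^ 2 ≤ δ' * (4 * (u - γ) ^ 2) := mul_le_mul h h8 hv2.le hδ'.le
        _ ≤ 4 * δ' * (δ ^ 2 + (u - γ) ^ 2) := by nlinarith
    have h10 : ∫ u in (y - δ')..(y + δ'), Pk δ (u - γ) ≤ ∫ _ in (y - δ')..(y + δ'), 4 * δ' / (y - γ) ^ 2 :=
      intervalIntegral.integral_mono_on (by linarith)
        ((Continuous.comp (Pk_cont hδ) (by fun_prop)).intervalIntegrable _ _) intervalIntegrable_const h4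
    rw [intervalIntegral.integral_const, smul_eq_mul] at h10
    refine h10.trans ?_
    have h11 : 4 * δ' ^ 2 ≤ (y - γ) ^ 2 := by
      rw [← sq_abs (y - γ)]
      calc 4 * δ' ^ 2 = (2 * δ') ^ 2 := by ring
        _ ≤ _ := pow_le_pow_left₀ (by positivity) h1.le 2
    unfold Pk
    rw [mul_div_assoc', mul_div_assoc', div_le_div_iff₀ hv2 (by positivity)]
    have h12 : 0 < δ' ^ 2 := by positivity
    nlinarith

lemma Pk_hy {δ : ℝ} (hδ : 0 < δ) {v w : ℝ} (h : |w - v| ≤ δ) : Pk δ v ≤ 3 * Pk δ w := by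
  unfold Pk
  rw [mul_div_assoc', div_le_div_iff₀ (by positivity) (by positivity)]
  have h1 : (w - v) ^ 2 ≤ δ ^ 2 := by
    rw [← sq_abs]
    exact pow_le_pow_left₀ (abs_nonneg _) h 2
  have h2 : w ^ 2 ≤ 2 * v ^ 2 + 2 * δ ^ 2 := by nlinarith [sq_nonneg (w - 2 * v)]
  nlinarith [sq_nonneg v]

lemma Pk_bd {δ R y : ℝ} (γ : ℝ) (hδ : 0 < δ) (hy : |y| ≤ R) :
    Pk δ (y - γ) ≤ δ * ((1 + 2 * R ^ 2) / δ ^ 2 + 2) * (1 / (1 + γ ^ 2)) := by
  unfold Pk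
  have hR : y ^ 2 ≤ R ^ 2 := by
    rw [← sq_abs]
    exact pow_le_pow_left₀ (abs_nonneg _) hy 2
  have h1 : 0 < δ ^ 2 + (y - γ) ^ 2 := by positivity
  have h2 : 0 < 1 + γ ^ 2 := by positivity
  rw [mul_one_div, div_le_div_iff₀ h1 h2, mul_assoc]
  apply mul_le_mul_of_nonneg_left _ hδ.le
  have h3 : γ ^ 2 ≤ 2 * y ^ 2 + 2 * (y - γ) ^ 2 := by nlinarith [sq_nonneg (γ - 2 * y)]
  have h4 : (1 + 2 * R ^ 2) / δ ^ 2 * (δ ^ 2 + (y - γ) ^ 2) ≥ 1 + 2 * R ^ 2 := by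
    have e : (1 + 2 * R ^ 2) / δ ^ 2 * (δ ^ 2 + (y - γ) ^ 2) =
        (1 + 2 * R ^ 2) + (1 + 2 * R ^ 2) / δ ^ 2 * (y - γ) ^ 2 := by field_simp
    rw [e]
    have : 0 ≤ (1 + 2 * R ^ 2) / δ ^ 2 * (y - γ) ^ 2 := by positivity
    linarith
  have h5 : 0 ≤ 2 * δ ^ 2 := by positivity
  rw [add_mul]
  linarith

/-- summability of the zeros -/
def SM (m : ℝ → ℕ) : Prop := Summable (fun γ : ℝ => (m γ : ℝ) / (1 + γ ^ 2))

variable {m : ℝ → ℕ}

lemma ZZ_eq (m : ℝ → ℕ) (δ y : ℝ) : ZZ m δ y = ∑' γ : ℝ, (m γ : ℝ) * Pk δ (y - γ) := rfl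

lemma bdd_summ (hm : SM m) (A : ℝ) : Summable (fun γ : ℝ => A * ((m γ : ℝ) / (1 + γ ^ 2))) :=
  hm.mul_left A

lemma term_le {δ R y : ℝ} (hδ : 0 < δ) (hy : |y| ≤ R) (γ : ℝ) :
    (m γ : ℝ) * Pk δ (y - γ) ≤ δ * ((1 + 2 * R ^ 2) / δ ^ 2 + 2) * ((m γ : ℝ) / (1 + γ ^ 2)) := by
  have h := mul_le_mul_of_nonneg_left (Pk_bd γ hδ hy) (Nat.cast_nonneg (α := ℝ) (m γ))
  refine h.trans (le_of_eq ?_)
  ring

lemma term_nonneg {δ : ℝ} (hδ : 0 < δ) (y γ : ℝ) : 0 ≤ (m γ : ℝ) * Pk δ (y - γ) :=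
  mul_nonneg (Nat.cast_nonneg _) (Pk_nonneg hδ _)

lemma summ (hm : SM m) {δ : ℝ} (hδ : 0 < δ) (y : ℝ) :
    Summable (fun γ : ℝ => (m γ : ℝ) * Pk δ (y - γ)) :=
  Summable.of_nonneg_of_le (fun γ => term_nonneg hδ y γ) (fun γ => term_le hδ le_rfl γ)
    (bdd_summ hm _)

lemma ZZ_cont (hm : SM m) {δ : ℝ} (hδ : 0 < δ) : Continuous (ZZ m δ) := by
  rw [continuous_iff_continuousAt]
  intro y0
  have h1 : ContinuousOn (fun y => ∑' γ : ℝ, (m γ : ℝ) * Pk δ (y - γ)) (Icc (y0 - 1) (y0 + 1)) := by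
    refine continuousOn_tsum (u := fun γ => δ * ((1 + 2 * (|y0| + 1) ^ 2) / δ ^ 2 + 2) *
      ((m γ : ℝ) / (1 + γ ^ 2))) ?_ (bdd_summ hm _) ?_
    · intro γ
      exact (continuous_const.mul ((Pk_cont hδ).comp (continuous_id.sub continuous_const))).continuousOn
    · intro γ y hy
      rw [Real.norm_of_nonneg (term_nonneg hδ y γ)]
      apply term_le hδ
      have h2 : |y - y0| ≤ 1 := by
        rw [abs_le]
        constructor <;> linarith [hy.1, hy.2]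
      have h3 : y = y0 + (y - y0) := by ring
      rw [h3]
      exact (abs_add_le _ _).trans (by linarith)
  exact h1.continuousAt (Icc_mem_nhds (by linarith) (by linarith))

lemma ZZ_nonneg {δ : ℝ} (hδ : 0 < δ) (y : ℝ) : 0 ≤ ZZ m δ y :=
  tsum_nonneg fun γ => term_nonneg hδ y γ

lemma ZZ_harn (hm : SM m) {δ' δ : ℝ} (h' : 0 < δ') (h : δ' ≤ δ) (y : ℝ) :
    ZZ m δ' y ≤ δ / δ' * ZZ m δ y := by
  have hδ : 0 < δ := h'.trans_le h
  rw [ZZ_eq, ZZ_eq, ← tsum_mul_left]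
  refine (summ hm h' y).tsum_le_tsum (fun γ => ?_) ((summ hm hδ y).mul_left _)
  have h1 := mul_le_mul_of_nonneg_left (Pk_harn h' h (y - γ)) (Nat.cast_nonneg (α := ℝ) (m γ))
  refine h1.trans (le_of_eq ?_)
  ring

lemma ZZ_hy (hm : SM m) {δ : ℝ} (hδ : 0 < δ) {y u : ℝ} (h : |u - y| ≤ δ) :
    ZZ m δ y ≤ 3 * ZZ m δ u := by
  rw [ZZ_eq, ZZ_eq, ← tsum_mul_left]
  refine (summ hm hδ y).tsum_le_tsum (fun γ => ?_) ((summ hm hδ u).mul_left _)
  have h0 : |(u - γ) - (y - γ)| ≤ δ := by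
    have : (u - γ) - (y - γ) = u - y := by ring
    rwa [this]
  have h1 := mul_le_mul_of_nonneg_left (Pk_hy hδ h0) (Nat.cast_nonneg (α := ℝ) (m γ))
  refine h1.trans (le_of_eq ?_)
  ring

lemma tsum_sq_le {ι : Type*} {a : ι → ℝ} (h0 : ∀ i, 0 ≤ a i) (hs : Summable a) :
    Summable (fun i => a i ^ 2) ∧ ∑' i, a i ^ 2 ≤ (∑' i, a i) ^ 2 := by
  have h1 : ∀ i, a i ^ 2 ≤ (∑' i, a i) * a i := by
    intro i
    rw [sq]
    exact mul_le_mul_of_nonneg_right (hs.le_tsum i fun j _ => h0 j) (h0 i)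
  have h2 : Summable (fun i => a i ^ 2) :=
    Summable.of_nonneg_of_le (fun i => sq_nonneg _) h1 (hs.mul_left _)
  refine ⟨h2, ?_⟩
  rw [sq (∑' i, a i), ← tsum_mul_left]
  exact h2.tsum_le_tsum h1 (hs.mul_left _)

lemma ZZ_sq (hm : SM m) {δ h : ℝ} (hδ : 0 < δ) (hh : 0 < h) (y : ℝ) :
    (ZZ m δ y / δ - ZZ m ((1 + h) * δ) y / ((1 + h) * δ)) / (2 * h + h ^ 2) ≤ ZZ m δ y ^ 2 := by
  have hδ2 : 0 < (1 + h) * δ := by positivity
  have s1 := summ hm hδ y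
  have s2 := summ hm hδ2 y
  have e : (ZZ m δ y / δ - ZZ m ((1 + h) * δ) y / ((1 + h) * δ)) / (2 * h + h ^ 2) =
      ∑' γ : ℝ, (m γ : ℝ) * ((Pk δ (y - γ) / δ - Pk ((1 + h) * δ) (y - γ) / ((1 + h) * δ)) /
        (2 * h + h ^ 2)) := by
    rw [ZZ_eq, ZZ_eq, ← tsum_div_const, ← tsum_div_const,
      ← (s1.div_const δ).tsum_sub (s2.div_const _), ← tsum_div_const]
    refine tsum_congr fun γ => ?_
    ring
  have hsum : Summable (fun γ : ℝ => (m γ : ℝ) * ((Pk δ (y - γ) / δ -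
      Pk ((1 + h) * δ) (y - γ) / ((1 + h) * δ)) / (2 * h + h ^ 2))) := by
    have := ((s1.div_const δ).sub (s2.div_const ((1 + h) * δ))).div_const (2 * h + h ^ 2)
    refine this.congr fun γ => ?_
    ring
  obtain ⟨s3, h3⟩ := tsum_sq_le (fun γ => term_nonneg (m := m) hδ y γ) s1
  rw [e]
  refine le_trans (hsum.tsum_le_tsum (fun γ => ?_) s3) h3
  have h4 := mul_le_mul_of_nonneg_left (Pk_sq hδ hh (y - γ)) (Nat.cast_nonneg (α := ℝ) (m γ))
  refine h4.trans ?_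
  rw [mul_pow]
  apply mul_le_mul_of_nonneg_right _ (sq_nonneg _)
  rcases Nat.eq_zero_or_pos (m γ) with h5 | h5
  · rw [h5]
    simp
  · have : (1 : ℝ) ≤ (m γ : ℝ) := by exact_mod_cast h5
    nlinarith

lemma ctbl (hm : SM m) : {γ : ℝ | m γ ≠ 0}.Countable := by
  have h := hm.countable_support
  refine h.mono fun γ hγ => ?_
  have h1 : (m γ : ℝ) ≠ 0 := by exact_mod_cast hγ
  have h2 : (1 + γ ^ 2 : ℝ) ≠ 0 := by positivity
  exact div_ne_zero h1 h2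

/-- a sum over the reals as a sum over a countable type -/
lemma tsum_sub {g : ℝ → ℝ} (hg : ∀ γ, m γ = 0 → g γ = 0) :
    ∑' γ : ℝ, g γ = ∑' γ : {γ : ℝ | m γ ≠ 0}, g γ := by
  symm
  apply tsum_subtype_eq_of_support_subset
  intro γ hγ h0
  exact hγ (hg γ h0)

lemma ZZ_avg (hm : SM m) {δ δ' : ℝ} (hδ : 0 < δ) (h : δ ≤ δ') (y : ℝ) :
    ∫ u in (y - δ')..(y + δ'), ZZ m δ u ≤ 16 * δ' * ZZ m δ' y := by
  have hδ' : 0 < δ' := hδ.trans_le h
  have : Countable {γ : ℝ | m γ ≠ 0} := (ctbl hm).to_subtype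
  set S : Set ℝ := {γ : ℝ | m γ ≠ 0} with hS
  set A : ℝ := δ * ((1 + 2 * (|y| + δ') ^ 2) / δ ^ 2 + 2) with hA
  have hsub : ∀ (u δ : ℝ), ZZ m δ u = ∑' γ : S, (m (γ : ℝ) : ℝ) * Pk δ (u - (γ : ℝ)) := by
    intro u δ
    rw [ZZ_eq]
    exact tsum_sub (m := m) fun γ h0 => by rw [h0]; simp
  have hb : Summable (fun γ : S => A * ((m (γ : ℝ) : ℝ) / (1 + (γ : ℝ) ^ 2))) :=
    (bdd_summ hm A).subtype S
  have h1 : HasSum (fun γ : S => ∫ u in (y - δ')..(y + δ'), (m (γ : ℝ) : ℝ) * Pk δ (u - (γ : ℝ)))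
      (∫ u in (y - δ')..(y + δ'), ZZ m δ u) := by
    refine intervalIntegral.hasSum_integral_of_dominated_convergence
      (fun (γ : S) (_ : ℝ) => A * ((m (γ : ℝ) : ℝ) / (1 + (γ : ℝ) ^ 2))) ?_ ?_ ?_ ?_ ?_
    · intro γ
      exact (continuous_const.mul ((Pk_cont hδ).comp
        (continuous_id.sub continuous_const))).aestronglyMeasurable
    · intro γ
      refine Eventually.of_forall fun u hu => ?_
      rw [Real.norm_of_nonneg (term_nonneg hδ u γ)]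
      apply term_le hδ
      rw [uIoc_of_le (by linarith)] at hu
      have h2 : |u - y| ≤ δ' := by
        rw [abs_le]
        constructor <;> linarith [hu.1, hu.2]
      have h3 : u = y + (u - y) := by ring
      rw [h3]
      exact (abs_add_le _ _).trans (by linarith)
    · exact Eventually.of_forall fun u _ => hb
    · exact intervalIntegrable_const
    · refine Eventually.of_forall fun u _ => ?_
      rw [hsub u δ]
      exact ((summ hm hδ u).subtype S).hasSum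
  have h2 : Summable (fun γ : S => 16 * δ' * ((m (γ : ℝ) : ℝ) * Pk δ' (y - (γ : ℝ)))) :=
    ((summ hm hδ' y).subtype S).mul_left _
  rw [← h1.tsum_eq, hsub y δ', ← tsum_mul_left]
  refine h1.summable.tsum_le_tsum (fun γ => ?_) h2
  rw [intervalIntegral.integral_const_mul]
  have h3 := mul_le_mul_of_nonneg_left (Pk_avg hδ h y (γ : ℝ)) (Nat.cast_nonneg (α := ℝ) (m (γ : ℝ)))
  refine h3.trans (le_of_eq ?_)
  ring

theorem zfun2 (hm : SM m) : Zfun2 (ZZ m) where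
  cont := fun _ hδ => ZZ_cont hm hδ
  nonneg := fun _ y hδ => ZZ_nonneg hδ y
  harn := fun _ _ y h' h => ZZ_harn hm h' h y
  sq := fun _ _ y hδ hh => ZZ_sq hm hδ hh y
  avg := fun _ _ y hδ h => ZZ_avg hm hδ h y
  hy := fun _ _ _ hδ h => ZZ_hy hm hδ h

end Pool.Agent.Q102.CP
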